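import Pool.Agent.Helper42.PP.Goals1
import Pool.Agent.Helper51.PP.GoalsA2b
import Pool.Agent.Helper94.PP.GoalsA1

/-!
# Project PP, part B, third file: ray class characters from functionals, and the fields `sm`, `kum`

Every statement is a `def ... : Prop` with its complete proof in the docstring. `P_X` are the statements
of `Helper42/PP/Goals1`, `RS.S_X`, `RSP.SP_X` those of Helper38. Notation: `κ = AdjoinRoot P`,
`ξ = AdjoinRoot.root P`, `N` the absolute norm. `n(g)`: `g ε = ε^(n(g))`; `i(g)`: `g` is equal to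
`δ^(i(g))` on `M`.
-/

set_option autoImplicit false

namespace Pool.Agent.Helper76.PP

open NumberField Polynomial Module IsDedekindDomain
open Pool.Agent.Helper51.RP Pool.Agent.Helper42.RD Pool.Agent.Helper42.PP
open Pool.Agent.Helper51.SigLeo (IwasawaLog)
open Pool.Agent.Helper38.RS (pz)
open Pool.Agent.Helper51.PP (RC Chs)
open Pool.Agent.Helper17.PP (Sys)

section ideals

variable {F : Type} [Field F] [NumberField F]

/-- The exponent of the prime `w` in the ideal `I`. -/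
noncomputable def co (w : HeightOneSpectrum (𝓞 F)) (I : Ideal (𝓞 F)) : ℤ :=
  ((Associates.mk w.asIdeal).count (Associates.mk I).factors : ℤ)

open Classical in
/-- The value at the ideal `I` of a functional `f` on `Fˣ` which kills the `Z`-units: it is `f x` if
the divisor of `x` outside `Z` is that of `I`. It is linear in `f`. -/
noncomputable def idl {A : Type} [Zero A] (Z : Set (HeightOneSpectrum (𝓞 F))) (f : Fˣ → A)
    (I : Ideal (𝓞 F)) : A :=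
  if h : ∃ x : Fˣ, ∀ w ∉ Z, ordv w (x : F) = co w I then f h.choose else 0

/-- `ψ` is an additive function on ideals, with values in `ZMod p`, which vanishes at the principal ideals
`(α)`, `α ≡ 1 mod 𝔪`. -/
structure Psi (p : ℕ) (𝔪 : Ideal (𝓞 F)) (ψ : Ideal (𝓞 F) → ZMod p) : Prop where
  ne : 𝔪 ≠ ⊥
  mul : ∀ I J, I ≠ ⊥ → J ≠ ⊥ → ψ (I * J) = ψ I + ψ J
  ray : ∀ α : 𝓞 F, α ≠ 0 → α - 1 ∈ 𝔪 → ψ (Ideal.span {α}) = 0

open Classical in
/-- The complex character modulo `𝔪` attached to the additive function `ψ`, extended by zero. -/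
noncomputable def chI {p : ℕ} (𝔪 : Ideal (𝓞 F)) (ψ₁ : AddChar (ZMod p) ℂ)
    (ψ : Ideal (𝓞 F) → ZMod p) (I : Ideal (𝓞 F)) : ℂ :=
  if I ≠ ⊥ ∧ I ⊔ 𝔪 = ⊤ then ψ₁ (ψ I) else 0

/-- The modulus `p³ ∏_{v ∈ S} v ∏_{v ∈ D} v` in the field `F`. -/
noncomputable def mD (p : ℕ) {K : Type} (F : Type) [Field K] [NumberField K] [Field F]
    [NumberField F] [Algebra K F] (S D : Finset (HeightOneSpectrum (𝓞 K))) : Ideal (𝓞 F) :=
  modu p F S * ∏ v ∈ D, v.asIdeal.map (algebraMap (𝓞 K) (𝓞 F))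

end ideals

section functionals

variable {p : ℕ} [Fact p.Prime] {K M K₁ M₁ : Type} [Field K] [NumberField K] [Field M]
    [NumberField M] [Field K₁] [NumberField K₁] [Field M₁] [NumberField M₁] [Algebra K M]
    [Algebra K K₁] [Algebra K M₁] [Algebra M M₁] [Algebra K₁ M₁] {ε : K₁} {δ : M ≃ₐ[K] M}
    {P : (ZMod p)[X]} (B : Base p K M K₁ M₁ ε δ P)

/-- The functional on `M₁ˣ` attached to the visible prime `v`, `η ∈ κ` and `γ ∈ F_p`. -/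
noncomputable def fU (tr : AdjoinRoot P →ₗ[ZMod p] ZMod p) (v : HeightOneSpectrum (𝓞 K))
    (η : AdjoinRoot P) (γ : ZMod p) (x : M₁ˣ) : ZMod p :=
  tr (η * B.til (B.R v) (nrm M M₁ x)) + γ * B.tilw (B.G v) (nrm K₁ M₁ x)

/-- The additive function on the ideals of `M₁` given by `fU`. -/
noncomputable def psU (tr : AdjoinRoot P →ₗ[ZMod p] ZMod p) (v : HeightOneSpectrum (𝓞 K))
    (η : AdjoinRoot P) (γ : ZMod p) : Ideal (𝓞 M₁) → ZMod p :=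
  idl (up M₁ B.S) (fU B tr v η γ)

/-- The additive function on the ideals of `K₁` attached to the visible prime `v` and `γ ∈ F_p`. -/
noncomputable def psH (v : HeightOneSpectrum (𝓞 K)) (γ : ZMod p) : Ideal (𝓞 K₁) → ZMod p :=
  idl (up K₁ B.S) (fun x ↦ γ * B.tilw (B.G v) x)

/-- The `P`-functional `∑_j β_j h_j + ∑_{v ∈ D} y_v R_v` on `Mˣ`. -/
noncomputable def fS {k : Type} [NormedField k] {L : IwasawaLog p k} {T : Set (K →+* k)}
    {aτ : K₁ˣ} (E : Tau B L T aτ) (β : Fin B.r → AdjoinRoot P)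
    (D : Finset (HeightOneSpectrum (𝓞 K))) (y : HeightOneSpectrum (𝓞 K) → AdjoinRoot P) (x : Mˣ) :
    AdjoinRoot P :=
  ∑ j, β j * E.h j x + ∑ v ∈ D, y v * B.R v x

/-- The character `ψ₁ ∘ tr` of `κ`. -/
noncomputable def psK (tr : AdjoinRoot P →ₗ[ZMod p] ZMod p) (ψ₁ : AddChar (ZMod p) ℂ) :
    AddChar (AdjoinRoot P) ℂ := ψ₁.compAddMonoidHom tr.toAddMonoidHom

end functionals

section fields

open Classical in
/-- The field `sm` of `Sys.Hyp`. -/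
def SmF {p : ℕ} {B B₀ k U Λ C : Type} [Field k] [AddCommGroup U] [Module k U] [AddCommGroup Λ]
    [Module k Λ] [AddCommGroup C] (S : Sys p B B₀ k U Λ C) (ψ : AddChar k ℂ) (K : ℕ) : Prop :=
  ∀ (D : Finset B) (y : B → k) (χ : AddChar Λ ℂ) (n : ℕ), 1 ≤ n →
    (∀ q ∈ D, S.spl q ∧ y q ≠ 0) → Set.InjOn S.bs (D : Set B) → (D.Nonempty ∨ χ ≠ 1) →
    (∀ x : U, S.fU ψ χ D y x = 1) →
    (1 / K : ℝ) * Real.log n - K * Real.log (Real.log (S.nm D + 3)) - K ≤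
      ∑ q ∈ S.below n with (S.spl q ∧ (∀ q' ∈ D, S.bs q' ≠ S.bs q) ∧
        ∃ t : k, S.fB ψ χ D y q t ≠ 1), (1 : ℝ) / S.N q

open Classical in
/-- The field `kum` of `Sys.Hyp`. -/
def KumF {p : ℕ} {B B₀ k U Λ C : Type} [Field k] [AddCommGroup U] [Module k U] [AddCommGroup Λ]
    [Module k Λ] [AddCommGroup C] (S : Sys p B B₀ k U Λ C) : Prop :=
  ∀ (x : U) (c : B →₀ k), (∀ q, c q ≠ 0 → S.spl q) →
    Set.InjOn S.bs (c.support : Set B) → ¬ (x = 0 ∧ c = 0) →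
    ∀ T : ℝ, ∃ n : ℕ, T ≤ ∑ q ∈ S.below n with (S.spl q ∧ (∀ q' ∈ c.support, S.bs q' ≠ S.bs q) ∧
      S.res q x + ∑ q' ∈ c.support, c q' * S.a q q' ≠ 0), (1 : ℝ) / S.N q

end fields

/-- **B_CHR** (functionals and ray class functions). Suppose that every divisor of `F` is principal outside
`Z`, let `f : Fˣ → F_p` be a homomorphism which kills the `Z`-units, with `f(α) = 0` if
`α ≡ 1 mod 𝔪`. Then `idl Z f` is an additive function modulo `𝔪`, with value `f x` at the ideals with the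
same divisor as `x` outside `Z`.

PROOF. `co w (I J) = co w I + co w J` for nonzero ideals (`Associates.factors_mul`, `count_mul`),
`co w I ≠ 0` for only finitely many `w` (`Ideal.finite_mulSupport` or `Ideal.finite_factors`), and
`co w (α) = ordv w α` for `α ∈ 𝓞_F`, `α ≠ 0` (`HeightOneSpectrum.valuation_of_algebraMap`,
`intValuation_if_neg`); `co w v` is `1` if `w = v` and `0` otherwise. The first claim is the hypothesis
applied to the finitely supported function `w ↦ co w I`. If `x, x'` have the divisor of `I` outside `Z`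
then `x/x'` is a `Z`-unit and `f x = f x'`: this is the second claim. The other ones follow. -/
def B_CHR : Prop :=
  ∀ (p : ℕ) [Fact p.Prime] (F : Type) [Field F] [NumberField F]
    (Z : Set (HeightOneSpectrum (𝓞 F))),
    (∀ n : HeightOneSpectrum (𝓞 F) →₀ ℤ, ∃ x : Fˣ, ∀ w ∉ Z, ordv w (x : F) = n w) →
  ∀ 𝔪 : Ideal (𝓞 F), 𝔪 ≠ ⊥ → ∀ f : Fˣ → ZMod p, Hom f → (∀ x ∈ Z.unit F, f x = 0) →
    (∀ (x : Fˣ) (α : 𝓞 F), (x : F) = α → α - 1 ∈ 𝔪 → f x = 0) →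
  (∀ I : Ideal (𝓞 F), I ≠ ⊥ → ∃ x : Fˣ, ∀ w ∉ Z, ordv w (x : F) = co w I) ∧
  (∀ (I : Ideal (𝓞 F)) (x : Fˣ), (∀ w ∉ Z, ordv w (x : F) = co w I) → idl Z f I = f x) ∧
  Psi p 𝔪 (idl Z f) ∧
  (∀ (x : Fˣ) (α : 𝓞 F), (x : F) = α → idl Z f (Ideal.span {α}) = f x) ∧
  ∀ (v : HeightOneSpectrum (𝓞 F)) (x : Fˣ), (∀ w ∉ Z, (w = v → ordv w (x : F) = 1) ∧
    (w ≠ v → ordv w (x : F) = 0)) → idl Z f v.asIdeal = f x

/-- **B_PRC** (the complex character).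

PROOF. `I J ≠ ⊥` iff `I, J ≠ ⊥`, and `I J ⊔ 𝔪 = ⊤` iff `I ⊔ 𝔪 = ⊤` and `J ⊔ 𝔪 = ⊤`; the values of `ψ₁` are
roots of unity. A principal ideal `(α)`, `α ≡ 1 mod 𝔪`, is prime to `𝔪`. -/
def B_PRC : Prop :=
  ∀ (p : ℕ) [Fact p.Prime] (F : Type) [Field F] [NumberField F] (𝔪 : Ideal (𝓞 F))
    (ψ : Ideal (𝓞 F) → ZMod p), Psi p 𝔪 ψ →
  ∀ ψ₁ : AddChar (ZMod p) ℂ, RC 𝔪 (chI 𝔪 ψ₁ ψ)

/-- **B_IDN** (ideals). `F/K` is an extension of number fields, `S` contains the primes above `p`.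

PROOF. `N(v 𝓞_F) = N(v)^[F : K]` (`Ideal.relNorm_algebraMap`, `Ideal.absNorm_relNorm`). A prime of `F` which
contains `v 𝓞_F` is above `v`; if it contains `modu p F S` it is above `p` or above a prime of `S`. -/
def B_IDN : Prop :=
  ∀ (p : ℕ) [Fact p.Prime] (K F : Type) [Field K] [NumberField K] [Field F] [NumberField F]
    [Algebra K F] (S : Finset (HeightOneSpectrum (𝓞 K))),
    (∀ v : HeightOneSpectrum (𝓞 K), v.valuation K (p : K) < 1 → v ∈ S) →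
  modu p F S ≠ ⊥ ∧
  (∀ v : HeightOneSpectrum (𝓞 K), v.asIdeal.map (algebraMap (𝓞 K) (𝓞 F)) ≠ ⊥ ∧
    v.asIdeal.map (algebraMap (𝓞 K) (𝓞 F)) ≠ ⊤ ∧
    Ideal.absNorm (v.asIdeal.map (algebraMap (𝓞 K) (𝓞 F))) =
      Ideal.absNorm v.asIdeal ^ finrank K F ∧
    (v ∉ S → v.asIdeal.map (algebraMap (𝓞 K) (𝓞 F)) ⊔ modu p F S = ⊤) ∧
    ∀ v' : HeightOneSpectrum (𝓞 K), v' ≠ v → v.asIdeal.map (algebraMap (𝓞 K) (𝓞 F)) ⊔
      v'.asIdeal.map (algebraMap (𝓞 K) (𝓞 F)) = ⊤) ∧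
  ∀ (v : HeightOneSpectrum (𝓞 K)) (D : Finset (HeightOneSpectrum (𝓞 K))), v ∉ S → v ∉ D →
    ∀ w : HeightOneSpectrum (𝓞 F), Above w v → w.asIdeal ⊔ mD p F S D = ⊤

/-- **B_KAP** (the field `κ` and its characters).

PROOF. `ξ^m = 1` because `P ∣ X^m - 1`. If `ξ^e = 1` then `ξ^d = 1` for `d = gcd(e, m)`, so
`P ∣ X^d - 1`; if `d < m` this contradicts `PhiData.cop` (`d ∣ m`, `d > 0`; `P` is not a unit). (3) The
powers of `ξ` generate the `F_p`-vector space `κ`, so `tr(η y) = 0` for all `y ∈ κ`; if `η ≠ 0` then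
`tr = 0` since `κ` is a field. (4) `ψ₁ a = 1` with `a ≠ 0` implies `ψ₁ = 1`. (5) `β ↦ (x ↦ ψ₁(tr(∑ β_j x_j)))`
is an injective homomorphism from `κ^r` to the group of characters of `κ^r` (if it is trivial then
`tr(β_j y) = 0` for all `y ∈ κ` by (4), so `β_j = 0`), and the two groups have the same finite order
(`AddChar.card_eq`). (6) `tr` is surjective. -/
def B_KAP : Prop :=
  ∀ (p : ℕ) [Fact p.Prime] (k : Type) [NormedField k] [NormedAlgebra ℚ_[p] k] (m : ℕ) (ζ : k)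
    (Φ : ℤ_[p][X]) (P : (ZMod p)[X]), PhiData p m ζ Φ P →
  AdjoinRoot.root P ^ m = 1 ∧ (∀ e : ℕ, AdjoinRoot.root P ^ e = 1 → m ∣ e) ∧
  (∃ tr : AdjoinRoot P →ₗ[ZMod p] ZMod p, tr ≠ 0) ∧ (∃ ψ₁ : AddChar (ZMod p) ℂ, ψ₁ ≠ 1) ∧
  ∀ tr : AdjoinRoot P →ₗ[ZMod p] ZMod p, tr ≠ 0 →
    (∀ η : AdjoinRoot P, (∀ i : ℕ, tr (η * AdjoinRoot.root P ^ i) = 0) → η = 0) ∧
    ∀ ψ₁ : AddChar (ZMod p) ℂ, ψ₁ ≠ 1 → (∀ a : ZMod p, ψ₁ a = 1 → a = 0) ∧
      (∀ (r : ℕ) (χ : AddChar (Fin r → AdjoinRoot P) ℂ), ∃ β : Fin r → AdjoinRoot P,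
        ∀ x, χ x = ψ₁ (tr (∑ j, β j * x j))) ∧ psK tr ψ₁ ≠ 1

/-- **B_FRE** (primes above `v`). There are at most `[F : K]` of them, of norm at least `N(v)`; if `W/v` is
unramified and the decomposition group of `W` is not trivial then `N(W)` is not a prime number.

PROOF. `∑ e f = [F : K]` over the primes above `v`, and `N(W) = N(v)^f`. The decomposition group has order
`e f` (`Helper2.RL.ef_free`, or as in `RD.D_ORB`). Apply the hypothesis to an `x ∈ K` with `ordv v x = 1`: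
`e = 1`, so `f ≥ 2`, and `N(v)^f` is not a prime. -/
def B_FRE : Prop :=
  ∀ (K F : Type) [Field K] [NumberField K] [Field F] [NumberField F] [Algebra K F] [IsGalois K F]
    (v : HeightOneSpectrum (𝓞 K)),
  {W : HeightOneSpectrum (𝓞 F) | Above W v}.Finite ∧
  {W : HeightOneSpectrum (𝓞 F) | Above W v}.ncard ≤ finrank K F ∧
  ∀ W : HeightOneSpectrum (𝓞 F), Above W v →
    Ideal.absNorm v.asIdeal ≤ Ideal.absNorm W.asIdeal ∧
    ((∀ x : K, ordv W (algebraMap K F x) = ordv v x) → ¬ FreeP K W →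
      ¬ (Ideal.absNorm W.asIdeal).Prime)

/-- **B_TRS** (from primes of `F` to primes of `K`). Let `F/K` be Galois, unramified outside `S`. There is `C`
such that for every finite set `D` and every set `V` of primes of `K`, and every function `g` with
values in `[0, 2]` on the primes of `F`, which vanishes at the primes with trivial decomposition group
above the `v ∉ S ∪ D ∪ V`:
`∑_W g(W) N(W)^(-s) ≤ 2 [F : K] ∑_{v ∈ V} N(v)^(-s) + 2 [F : K] ∑_{v ∈ D} 1/N(v) + C` for `1 < s ≤ 2`.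

PROOF (from `B_FRE`, `P_UPR`, `RS.S_DG1`, `RS.S_EUL`). Each `W` is above exactly one `v`, all the series
`∑ N(W)^(-s)`, `∑ N(v)^(-s)` converge (the first claim of `S_EUL`: sum over all ideals). The `W` above `S`
are finitely many, they contribute at most `2 #(up F S)`. The `W ∉ up F S` with `¬ FreeP K W` have a norm
which is not prime (`B_FRE`), they contribute at most `2 C₁`, `C₁` from `S_DG1`. The `W` above `v ∈ D`, or
above `v ∈ V`, are at most `[F : K]` and each term is at most `2 N(v)^(-s)`, with `N(v)^(-s) ≤ 1/N(v)`. At the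
remaining `W`, `g(W) = 0`. -/
def B_TRS : Prop :=
  ∀ (K F : Type) [Field K] [NumberField K] [Field F] [NumberField F] [Algebra K F] [IsGalois K F]
    (S : Finset (HeightOneSpectrum (𝓞 K))),
    (∀ v : HeightOneSpectrum (𝓞 K), v ∉ S → ∀ W : HeightOneSpectrum (𝓞 F), Above W v →
      ∀ x : K, ordv W (algebraMap K F x) = ordv v x) →
  ∃ C : ℝ, ∀ (D : Finset (HeightOneSpectrum (𝓞 K))) (V : Set (HeightOneSpectrum (𝓞 K)))
    (g : HeightOneSpectrum (𝓞 F) → ℝ), (∀ W, 0 ≤ g W ∧ g W ≤ 2) →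
    (∀ (W : HeightOneSpectrum (𝓞 F)) (v : HeightOneSpectrum (𝓞 K)), Above W v → FreeP K W →
      v ∉ S → v ∉ D → v ∉ V → g W = 0) →
    ∀ s : ℝ, 1 < s → s ≤ 2 →
      ∑' W : HeightOneSpectrum (𝓞 F), g W * (Ideal.absNorm W.asIdeal : ℝ) ^ (-s) ≤
        2 * finrank K F * pz V s + 2 * finrank K F * ∑ v ∈ D, (1 : ℝ) / Ideal.absNorm v.asIdeal + C

/-- **B_TRN** (truncation). There is `C` such that for every set `V` of primes, `n ≥ 2`, and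
`s = 1 + 1/(n log 2)`: `∑_{v ∈ V} N(v)^(-s) ≤ ∑_{v ∈ V, N(v) < 2^n} 1/N(v) + C`.

PROOF (from `RS.S_PSM`, `RS.S_EUL`). `σ = 1/(n log 2) ≤ 1`. The terms with `N(v) < 2^n` are at most `1/N(v)`.
The rest is at most `∑_{N(v) ≥ 2^n} N(v)^(-1-σ)`. For all `v`, `N(v)^(-1-σ/2) ≥ N(v)^(-1-σ)`, and if
`N(v) ≥ 2^n` then `N(v)^(-1-σ/2) = N(v)^(-1-σ) N(v)^(σ/2) ≥ e^(1/2) N(v)^(-1-σ)` (`2^(n σ) = e`). So
`(e^(1/2) - 1) ∑_{N(v) ≥ 2^n} N(v)^(-1-σ) ≤ pz univ (1 + σ/2) - pz univ (1 + σ) ≤ log 2 + 2 C₁`. -/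
def B_TRN : Prop :=
  ∀ (K : Type) [Field K] [NumberField K], ∃ C : ℝ, ∀ (V : Set (HeightOneSpectrum (𝓞 K)))
    (n : ℕ) (A : Finset (HeightOneSpectrum (𝓞 K))), 2 ≤ n →
    (∀ v, v ∈ A ↔ v ∈ V ∧ Ideal.absNorm v.asIdeal < 2 ^ n) →
    pz V (1 + 1 / (n * Real.log 2)) ≤ ∑ v ∈ A, (1 : ℝ) / Ideal.absNorm v.asIdeal + C

/-- **B_DRC** (`∑_{v ∈ D} 1/N(v)`) for a finite set of primes of product norm `N`.

PROOF. Let `x = log(N + 3) > 1`. The `v ∈ D` with `N(v) > x` are at most `log₂ N ≤ x/log 2` (all norms are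
`≥ 2`), they contribute at most `1/log 2`. The primes with `N(v) ≤ x`: for every integer `j` there are at
most `[K : ℚ]` primes of norm `j` (they are above the same rational prime), so they contribute at most
`[K : ℚ] ∑_{j ≤ x} 1/j ≤ [K : ℚ] (1 + log x)`. And `log x > 0` as `log 4 > 1`. -/
def B_DRC : Prop :=
  ∀ (K : Type) [Field K] [NumberField K], ∃ C : ℝ, 0 ≤ C ∧
    ∀ D : Finset (HeightOneSpectrum (𝓞 K)), ∑ v ∈ D, (1 : ℝ) / Ideal.absNorm v.asIdeal ≤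
      C + C * Real.log (Real.log ((∏ v ∈ D, Ideal.absNorm v.asIdeal : ℕ) + 3))

/-- **B_CRT** (choice of elements). Let `F/K` be Galois, `v ∉ S ∪ D`, `c ∈ 𝓞_K`, `c ∉ v`, `w₀` above `v`. There
is `α ∈ 𝓞_F`, `α ≠ 0`, `α ≡ 1 mod p³ ∏_S ∏_D`, `α ≡ c mod w₀`, `α ≡ 1` modulo the other primes above `v`.
It is prime to `v` and to `p³ ∏_S ∏_D`.

PROOF. The primes above `v` are distinct maximal ideals, finitely many, not dividing `modu p F S · ∏_D`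
(they do not contain `p`, and a prime of `F` above `v' ≠ v` is not above `v`). Chinese remainder theorem;
`α ∉ w₀` (`w₀ ∩ 𝓞_K = v`), so `α ≠ 0` and `α` is prime to all the factors. -/
def B_CRT : Prop :=
  ∀ (p : ℕ) [Fact p.Prime] (K F : Type) [Field K] [NumberField K] [Field F] [NumberField F]
    [Algebra K F] [IsGalois K F] (S D : Finset (HeightOneSpectrum (𝓞 K))),
    (∀ v : HeightOneSpectrum (𝓞 K), v.valuation K (p : K) < 1 → v ∈ S) →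
  ∀ v : HeightOneSpectrum (𝓞 K), v ∉ S → v ∉ D → ∀ c : 𝓞 K, c ∉ v.asIdeal →
  ∀ w₀ : HeightOneSpectrum (𝓞 F), Above w₀ v →
  ∃ α : 𝓞 F, α ≠ 0 ∧ α - 1 ∈ mD p F S D ∧ α - algebraMap (𝓞 K) (𝓞 F) c ∈ w₀.asIdeal ∧
    (∀ w : HeightOneSpectrum (𝓞 F), Above w v → w ≠ w₀ → α - 1 ∈ w.asIdeal) ∧
    Ideal.span {α} ⊔ v.asIdeal.map (algebraMap (𝓞 K) (𝓞 F)) = ⊤ ∧ Ideal.span {α} ⊔ mD p F S D = ⊤

/-- **B_NOR** (norms). Let `K ⊆ E ⊆ F` with `F/K`, `E/K` Galois, `S` a finite set of primes of `K`.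

PROOF. `N(x) = ∏_{h ∈ Gal(F/E)} h(x)` (`Algebra.norm_eq_prod_automorphisms`). (1) `ord_w(N x)`, `w ∉ up E S`: for
`W` above `w`, `e ord_w(N x) = ∑_h ord_W(h x) = 0` since `up F S` is stable (`P_UPR`). (2) `g` normalizes
`Gal(F/E)`: `N(g x) = ∏ h g x = ∏ g h' x = g N(x) = σ N(x)`. (3) `v 𝓞_F`, `p³ 𝓞_F` are stable under
`Gal(F/K)`, so all `h(α)` are congruent to `1` modulo `v 𝓞_F` (and modulo `p³`), and `N(α) - 1` too; the
valuation of `W` above `w` on `E` is a power of that of `w`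
(`HeightOneSpectrum.valuation_liesOver`), so `W.valuation (N α - 1) < 1` implies the same for `w`, and
`W.valuation (N α - 1) ≤ W.valuation p ^ 3` too. For `LocS` take `y = 1`. (4) Let `w' ∉ up E S`, `W'` above `w'`:
`e(W'/w') ord_{w'}(N x) = ∑_h ord_{W'}(h x)`, and `ord_{W'}(h x) = ord_{h⁻¹ W'}(x)` is `1` if `h⁻¹ W' = W` and
`0` otherwise. If `w' ≠ w` the sum is `0`. If `w' = w` take `W' = W`: as `W` has trivial decomposition
group the sum is `1`; so `e = 1` and `ord_w(N x) = 1`. -/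
def B_NOR : Prop :=
  ∀ (p : ℕ) [Fact p.Prime] (K E F : Type) [Field K] [NumberField K] [Field E] [NumberField E]
    [Field F] [NumberField F] [Algebra K E] [Algebra K F] [Algebra E F] [IsScalarTower K E F]
    [IsGalois K E] [IsGalois K F] (S : Finset (HeightOneSpectrum (𝓞 K))),
  (∀ x ∈ (up F S).unit F, nrm E F x ∈ (up E S).unit E) ∧
  (∀ (g : F ≃ₐ[K] F) (σ : E ≃ₐ[K] E), (∀ y : E, g (algebraMap E F y) = algebraMap E F (σ y)) →
    ∀ x : Fˣ, nrm E F (act g x) = act σ (nrm E F x) ∧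
      inc E F (act σ (nrm E F x)) = ∏ h : F ≃ₐ[E] F, act (g * h.restrictScalars K) x) ∧
  (∀ (x : Fˣ) (α : 𝓞 F), (x : F) = α →
    (α - 1 ∈ modu p F S → LocS p (up E S) (nrm E F x)) ∧
    ∀ v : HeightOneSpectrum (𝓞 K), α - 1 ∈ v.asIdeal.map (algebraMap (𝓞 K) (𝓞 F)) →
      ∀ w : HeightOneSpectrum (𝓞 E), Above w v → w.valuation E ((nrm E F x : Eˣ) - 1 : E) < 1) ∧
  ∀ (v : HeightOneSpectrum (𝓞 K)) (W : HeightOneSpectrum (𝓞 F)) (w : HeightOneSpectrum (𝓞 E)),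
    v ∉ S → Above W v → Above W w → FreeP K W → ∀ x : Fˣ,
    (∀ W' ∉ up F S, (W' = W → ordv W' (x : F) = 1) ∧ (W' ≠ W → ordv W' (x : F) = 0)) →
    ∀ w' ∉ up E S, (w' = w → ordv w' ((nrm E F x : Eˣ) : E) = 1) ∧
      (w' ≠ w → ordv w' ((nrm E F x : Eˣ) : E) = 0)

/-- **B_LOG** (the local logarithms `th v`).

PROOF (from `P_VIS`). Let `W = B.W v`. `N(W) = N(v)` and `p ∣ N(v) - 1` by `P_VIS` (`v ∤ p` because `v ∉ S`; the
prime `Q v` below `W` is free), so `𝓞_K/v = 𝓞_{M₁}/W`. (1) `LocPow p W x` with `y = 1`; `thk` with `i = 0`.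
(3) If `th v x = 0` then `x vp^i y^p ≡ 1` at `W` for some `i`, `y` (`thk`); `ord_W(vp) = ord_v(vp) = 1` (`unr`,
`vpo`), so `ord_W(x) + i + p ord_W(y) = 0` and `p ∣ i`: `vp^i` is a `p`-th power and `LocPow p W x`. The
converse: `i = 0`. (2) The group `(𝓞_K/v)ˣ` is cyclic of order divisible by `p`; let `c₀ ∈ 𝓞_K ∖ v` have a
residue class which is not a `p`-th power. `th v c₀ ≠ 0`: otherwise `LocPow p W c₀` by (3) (`ord_W(c₀) = 0`),
`c₀ y^p ≡ 1` with `ord_W(y) = 0`, so the class of `c₀` in `𝓞_{M₁}/W = 𝓞_K/v` is a `p`-th power. Let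
`n ∈ ℕ` with `n th v c₀ = 1`, `c = c₀^n`. If `x ≡ c` at `W` then `x/c ≡ 1` and `th v x = th v c = 1`
by (1). -/
def B_LOG : Prop :=
  ∀ (p : ℕ) [Fact p.Prime] (K M K₁ M₁ : Type) [Field K] [NumberField K] [Field M] [NumberField M]
    [Field K₁] [NumberField K₁] [Field M₁] [NumberField M₁] [Algebra K M] [Algebra K K₁]
    [Algebra K M₁] [Algebra M M₁] [Algebra K₁ M₁] [IsScalarTower K M M₁] [IsScalarTower K K₁ M₁]
    [IsGalois K M] [IsGalois K K₁] [IsGalois K M₁] (ε : K₁), Tower p K M K₁ M₁ ε →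
  ∀ (δ : M ≃ₐ[K] M) (P : (ZMod p)[X]) (B : Base p K M K₁ M₁ ε δ P), ∀ v ∈ B.Vis,
  (∀ x : M₁ˣ, (B.W v).valuation M₁ ((x : M₁) - 1) < 1 → B.th v x = 0) ∧
  (∃ c : 𝓞 K, c ∉ v.asIdeal ∧ ∀ x : M₁ˣ,
    (B.W v).valuation M₁ ((x : M₁) - algebraMap K M₁ (c : K)) < 1 → B.th v x = 1) ∧
  ∀ x : M₁ˣ, (p : ℤ) ∣ ordv (B.W v) (x : M₁) →
    (B.th v x = 0 ↔ LocPow p (B.W v) (x : M₁))

/-- **B_NRM** (normalization of functionals). For a `P`-functional `F` the `P`-functional `til F` kills the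
`S`-units, and agrees with `F` on the `x` with `LocS`; the same for `ω`-functionals and `tilw`. `R v` is a
`P`-functional and `G v` an `ω`-functional for visible `v`.

PROOF (from `P_FUN`, `P_OMG`, `P_UPR`). `rho i` is a `P`-functional (`rhoP`), `rhoL`. Let `x` be an `S`-unit of
`M`. Let `e ∈ F_p[X]`, `e ≡ 1 mod P`, `(X^m - 1)/P ∣ e` (`X^m - 1` is squarefree); `x' = pol e δ x` is an
`S`-unit (`up M S` is stable) and `P(δ) x'` is a `p`-th power (`P e` is a multiple of `X^m - 1`, and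
`δ^m = 1`; up to `p`-th powers `pol` is multiplicative). By `P_FUN` (1) `F(x') = F(x)` and
`rho i x' = rho i x` for `P`-functionals. Let `c_i ∈ F_p[X]` with `c_i(ξ) = rho i x`. The element
`y = x'/∏ c_i(δ) u_i` is an `S`-unit, `P(δ) y` is a `p`-th power (`uP`), and
`rho j y = rho j x - c_j(ξ) = 0` (`rhou`), so it is a `p`-th power by `rho0`, and
`0 = F(y) = F(x) - ∑ c_i(ξ) F(u_i) = til F x`. For `tilw g`, `g` an `ω`-functional, `x` an `S`-unit of `K₁`: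
`P_OMG` (2) with `G` the group of the `S`-units gives an `S`-unit `a` of type `ω` with `g(a) = g(x)`,
`rw i a = rw i x`. `y = a/∏ uw_i^(n_i)`, `n_i ∈ ℕ`, `n_i = rw i a` in `F_p`, is an `S`-unit of type `ω`
(`P_OMG` (4)) killed by the `rw j` (`rwu`), so a `p`-th power (`rw0`), and `0 = g(y)`. The last claims:
`P_FUN` (2), `P_OMG` (1). -/
def B_NRM : Prop :=
  ∀ (p : ℕ) [Fact p.Prime] (k : Type) [NormedField k] [NormedAlgebra ℚ_[p] k]
    (K M K₁ M₁ : Type) [Field K] [NumberField K] [Field M] [NumberField M]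
    [Field K₁] [NumberField K₁] [Field M₁] [NumberField M₁] [Algebra K M] [Algebra K K₁]
    [Algebra K M₁] [Algebra M M₁] [Algebra K₁ M₁] [IsScalarTower K M M₁] [IsScalarTower K K₁ M₁]
    [IsGalois K M] [IsGalois K K₁] [IsGalois K M₁] (ε : K₁), Tower p K M K₁ M₁ ε →
  ∀ (m : ℕ) (δ : M ≃ₐ[K] M) (ζ : k) (Φ : ℤ_[p][X]) (P : (ZMod p)[X]), PhiData p m ζ Φ P →
    orderOf δ = m → finrank K M = m →
  ∀ B : Base p K M K₁ M₁ ε δ P,
  (∀ F : Mˣ → AdjoinRoot P, IsP δ P F → IsP δ P (B.til F) ∧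
    (∀ x ∈ (up M B.S).unit M, B.til F x = 0) ∧ ∀ x, LocS p (up M B.S) x → B.til F x = F x) ∧
  (∀ g : K₁ˣ → ZMod p, IsOm p K ε g → IsOm p K ε (B.tilw g) ∧
    (∀ x ∈ (up K₁ B.S).unit K₁, B.tilw g x = 0) ∧ ∀ x, LocS p (up K₁ B.S) x → B.tilw g x = g x) ∧
  ∀ v ∈ B.Vis, IsP δ P (B.R v) ∧ IsOm p K ε (B.G v)

/-- **B_UPV** (upper visible primes). For visible `v` the function `psU B tr v η γ` is additive modulo
`p³ ∏_S · v`, its value at `W q` is `tr(η A(v, q)) + γ pi(v, q)`, and if `η ≠ 0` it is not zero at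
some principal ideal `(α)`, `α ≡ 1 mod p³ ∏_S`, prime to `v`.

PROOF (from `B_CHR`, `B_IDN`, `B_KAP`, `B_CRT`, `B_NOR`, `B_LOG`, `B_NRM`, `P_UPR`, `P_VIS`, `RD.E_TOW`). Let
`f = fU B tr v η γ`, a homomorphism. *f kills the `S`-units*: norms of `S`-units are `S`-units (`B_NOR` (1)),
and `B_NRM`. *`f(α)` for `α ≡ 1 mod p³ ∏_S`*: by `B_NOR` (3) the norms satisfy `LocS`, so by `B_NRM`
`f(α) = tr(η R_v(N_{M₁/M} α)) + γ G_v(N_{M₁/K₁} α)`. For `g ∈ Gal(M₁/K)` let `θ_g = th v (g α)`,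
`i(g)` with `g = δ^(i(g))` on `M`, `n(g)` with `g ε = ε^(n(g))`. By `B_NOR` (2),
`δ^i(N_{M₁/M} α) = ∏ g α` over the `g` with `g = δ^i` on `M` (restriction `Gal(M₁/K) → Gal(M/K)` is
surjective with kernel `Gal(M₁/M)`), and the same for `K₁`; so
(*) `f(α) = ∑_{g ∈ Gal(M₁/K)} θ_g (tr(η ξ^(-i(g))) + γ n(g)⁻¹)`.
If moreover `α ≡ 1 mod v 𝓞_{M₁}` then all `g α ≡ 1` at `W v` (the ideal `v 𝓞_{M₁}` is stable), `θ_g = 0`
(`B_LOG` (1)) and `f(α) = 0`. So `B_CHR` applies with `Z = up M₁ S` (`prMK`) and `𝔪 = p³ ∏_S · v`.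
*Values*. `psU(W q) = f(z q)` (`zo`). The first term is `tr(η A(v, q))`. `N_{M₁/K₁}(z q)` and `y q` have
the same divisor outside `S` (`B_NOR` (4), `yo`, `Wa`; `q ∈ Spl K₁ S` by `P_VIS`), so they have the same
image under `tilw (G v)` (`B_NRM`): `pi(v, q)`.
*Nontriviality*. Let `W = W v`, `c` from `B_LOG` (2). CLAIM: there is `g` with
`b_g = tr(η ξ^(-i(g))) + γ n(g)⁻¹ ≠ 0`. Otherwise let `g₀ ∈ Gal(M₁/K₁)`, `g₀ ≠ 1` (`Tower.nt`, `M₁/K₁` is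
Galois), regarded in `Gal(M₁/K)`: `n(g₀ g) = n(g)`, `i(g₀ g) = i(g₀) + i(g)`. Subtract `b_g = 0` and
`b_{g₀ g} = 0`: `tr(η (ξ^(-i(g₀)) - 1) ξ^(-i(g))) = 0` for all `g`; `i(g)` takes all values modulo `m`, so
`η (ξ^(-i(g₀)) - 1) = 0` by `B_KAP`. But `g₀` is not the identity on `M` (`lin`), so `m ∤ i(g₀)` and
`ξ^(i(g₀)) ≠ 1`: `η = 0`, a contradiction. Let `W' = g⁻¹ W` (that is `W'.valuation y = W.valuation (g y)`)
and `α` be given by `B_CRT` with `F = M₁`, `D = ∅`, `w₀ = W'`. `g α ≡ g c = c` at `W`, so `θ_g = 1`; for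
`g' ≠ g` the prime `g'⁻¹ W` is different from `W'` (`W` is free), so `θ_{g'} = 0`. By (*)
`f(α) = b_g ≠ 0`. -/
def B_UPV : Prop :=
  ∀ (p : ℕ) [Fact p.Prime] (k : Type) [NormedField k] [NormedAlgebra ℚ_[p] k]
    (K M K₁ M₁ : Type) [Field K] [NumberField K] [Field M] [NumberField M]
    [Field K₁] [NumberField K₁] [Field M₁] [NumberField M₁] [Algebra K M] [Algebra K K₁]
    [Algebra K M₁] [Algebra M M₁] [Algebra K₁ M₁] [IsScalarTower K M M₁] [IsScalarTower K K₁ M₁]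
    [IsGalois K M] [IsGalois K K₁] [IsGalois K M₁] (ε : K₁), Tower p K M K₁ M₁ ε →
  ∀ (m : ℕ) (δ : M ≃ₐ[K] M) (ζ : k) (Φ : ℤ_[p][X]) (P : (ZMod p)[X]), PhiData p m ζ Φ P →
    orderOf δ = m → finrank K M = m →
  ∀ (B : Base p K M K₁ M₁ ε δ P) (tr : AdjoinRoot P →ₗ[ZMod p] ZMod p), tr ≠ 0 →
  ∀ v ∈ B.Vis, ∀ (η : AdjoinRoot P) (γ : ZMod p),
  Psi p (modu p M₁ B.S * v.asIdeal.map (algebraMap (𝓞 K) (𝓞 M₁))) (psU B tr v η γ) ∧
  (∀ q ∈ B.Vis, psU B tr v η γ (B.W q).asIdeal = tr (η * B.A v q) + γ * B.pi v q) ∧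
  (η ≠ 0 → ∃ α : 𝓞 M₁, α - 1 ∈ modu p M₁ B.S ∧
    Ideal.span {α} ⊔ v.asIdeal.map (algebraMap (𝓞 K) (𝓞 M₁)) = ⊤ ∧
    psU B tr v η γ (Ideal.span {α}) ≠ 0)

/-- **B_UPH** (upper primes which are not visible). For visible `v` the function `psH B v γ` on the ideals of
`K₁` is additive modulo `p³ ∏_S · v`, its value at `Q l` is `γ pi(v, l)`, and if `γ ≠ 0` it is not
zero at some principal ideal `(α)`, `α ≡ 1 mod p³ ∏_S`, prime to `v`.

PROOF (from `B_CHR`, `B_IDN`, `B_CRT`, `B_LOG`, `B_NRM`, `P_UPR`, `P_VIS`). `f = γ tilw(G v)` kills the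
`S`-units (`B_NRM`). For `α ≡ 1 mod p³ ∏_S`: `LocS` (`y = 1`), so
`f(α) = γ G_v(α) = γ ∑_{σ ∈ Gal(K₁/K)} n(σ)⁻¹ th v (σ α)`; if `α ≡ 1 mod v` then `σ α ≡ 1` at `W v` for all
`σ`, and `f(α) = 0`. `B_CHR` with `Z = up K₁ S` (`prK`). The value at `Q l` is `f(y l) = γ pi(v, l)` (`yo`).
Nontriviality: `Q v` has trivial decomposition group (`Qa`; `v ∈ Spl K₁ S` by `P_VIS`) and is below `W v`.
Let `c` be from `B_LOG` (2) and `α` from `B_CRT` with `F = K₁`, `D = ∅`, `w₀ = Q v`. At `W v`: `α ≡ c`, and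
`σ α ≡ 1` for `σ ≠ 1` because `σ⁻¹(Q v) ≠ Q v`. So `f(α) = γ n(1)⁻¹ = γ`. -/
def B_UPH : Prop :=
  ∀ (p : ℕ) [Fact p.Prime] (k : Type) [NormedField k] [NormedAlgebra ℚ_[p] k]
    (K M K₁ M₁ : Type) [Field K] [NumberField K] [Field M] [NumberField M]
    [Field K₁] [NumberField K₁] [Field M₁] [NumberField M₁] [Algebra K M] [Algebra K K₁]
    [Algebra K M₁] [Algebra M M₁] [Algebra K₁ M₁] [IsScalarTower K M M₁] [IsScalarTower K K₁ M₁]
    [IsGalois K M] [IsGalois K K₁] [IsGalois K M₁] (ε : K₁), Tower p K M K₁ M₁ ε →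
  ∀ (m : ℕ) (δ : M ≃ₐ[K] M) (ζ : k) (Φ : ℤ_[p][X]) (P : (ZMod p)[X]), PhiData p m ζ Φ P →
    orderOf δ = m → finrank K M = m →
  ∀ B : Base p K M K₁ M₁ ε δ P, ∀ v ∈ B.Vis, ∀ γ : ZMod p,
  Psi p (modu p K₁ B.S * v.asIdeal.map (algebraMap (𝓞 K) (𝓞 K₁))) (psH B v γ) ∧
  (∀ l ∈ B.calP, psH B v γ (B.Q l).asIdeal = γ * B.pi v l) ∧
  (γ ≠ 0 → ∃ α : 𝓞 K₁, α - 1 ∈ modu p K₁ B.S ∧
    Ideal.span {α} ⊔ v.asIdeal.map (algebraMap (𝓞 K) (𝓞 K₁)) = ⊤ ∧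
    psH B v γ (Ideal.span {α}) ≠ 0)

/-- **B_BLU** (the data of `A2_BL1` for `B.sys E`).

PROOF (from `B_UPV`, `B_PRC`, `B_IDN`, `B_KAP`, `P_VIS`, `P_UPR`). For `q = (v, e_q)` put
`Xd q y c t e = chI (p³ ∏_S · v) ψ₁ (psU B tr v (t y) (-(e e_q⁻¹ tr(y c))))` (for split `q`; `1` otherwise, it
does not matter). The value at `W q`: `W q` is prime to the modulus (`B_IDN`; `v_q ∉ S`, `v_q ≠ v_{q'}`)
and `tr(t y A(v', v)) - e_q e_{q'}⁻¹ tr(y c) pi(v', v) = tr(y (t a(q', q) + c kap(q', q)))`. The fields of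
`Chs`: `inj`: `B.W` is injective on `Vis` (`W v` is above `v`), the labels are the same; `nW` by `P_VIS`;
`nne`, `cop₀`, `cop`, `m0` by `B_IDN`; `rc` by `B_PRC`; `nt`: `η = t y ≠ 0`, `B_UPV`, and `ψ₁ a ≠ 1` for
`a ≠ 0` (`B_KAP`); `(α)` is prime to `p³ ∏_S` as `α ≡ 1`, `α ≠ 0` as `v 𝓞_{M₁} ≠ ⊤`. -/
def B_BLU : Prop :=
  ∀ (p : ℕ) [Fact p.Prime] (k : Type) [NormedField k] [NormedAlgebra ℚ_[p] k]
    (K M K₁ M₁ : Type) [Field K] [NumberField K] [Field M] [NumberField M]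
    [Field K₁] [NumberField K₁] [Field M₁] [NumberField M₁] [Algebra K M] [Algebra K K₁]
    [Algebra K M₁] [Algebra M M₁] [Algebra K₁ M₁] [IsScalarTower K M M₁] [IsScalarTower K K₁ M₁]
    [IsGalois K M] [IsGalois K K₁] [IsGalois K M₁] (ε : K₁), Tower p K M K₁ M₁ ε →
  ∀ (m : ℕ) (δ : M ≃ₐ[K] M) (ζ : k) (Φ : ℤ_[p][X]) (P : (ZMod p)[X]) [Fact (Irreducible P)],
    PhiData p m ζ Φ P → orderOf δ = m → finrank K M = m →
  ∀ (B : Base p K M K₁ M₁ ε δ P) (L : IwasawaLog p k) (T : Set (K →+* k)) (aτ : K₁ˣ)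
    (E : Tau B L T aτ) (tr : AdjoinRoot P →ₗ[ZMod p] ZMod p) (ψ₁ : AddChar (ZMod p) ℂ),
    tr ≠ 0 → ψ₁ ≠ 1 →
  ∃ Xd : B.LP → AdjoinRoot P → AdjoinRoot P → AdjoinRoot P → (ZMod p)ˣ → Ideal (𝓞 M₁) → ℂ,
    (∀ (y c : B.LP → AdjoinRoot P) (t : AdjoinRoot P) (e : (ZMod p)ˣ), t ≠ 0 →
      Chs (B.sys E) M₁ (modu p M₁ B.S)
        (fun q ↦ q.1.1.asIdeal.map (algebraMap (𝓞 K) (𝓞 M₁))) (finrank K M₁)
        {q | (B.sys E).spl q ∧ q.1.2 = e} {q | (B.sys E).spl q ∧ y q ≠ 0} (fun q ↦ B.W q.1.1)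
        (fun q ↦ Xd q (y q) (c q) t e)) ∧
    ∀ (y c t : AdjoinRoot P) (q q' : B.LP), (B.sys E).spl q → (B.sys E).spl q' →
      (B.sys E).bs q ≠ (B.sys E).bs q' → Xd q' y c t q.1.2 (B.W q.1.1).asIdeal =
        psK tr ψ₁ (y * (t * (B.sys E).a q' q +
          c * algebraMap (ZMod p) (AdjoinRoot P) ((B.sys E).kap q' q)))

/-- **B_BLH** (the data of `A2_BL2` for `B.sys E`).

PROOF (from `B_UPH`, `B_PRC`, `B_IDN`, `B_KAP`, `P_VIS`, `P_UPR`). As `B_BLU`, with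
`Xd q s e = chI (p³ ∏_S · v) ψ₁ (psH B v (-(s e e_q⁻¹)))`; the primes `P` which are not split are in
`calP ∖ Vis`, different from the base of the split `q`; `N(Q v) = N(v)` and `Q v` is above `v` (`Qa`). -/
def B_BLH : Prop :=
  ∀ (p : ℕ) [Fact p.Prime] (k : Type) [NormedField k] [NormedAlgebra ℚ_[p] k]
    (K M K₁ M₁ : Type) [Field K] [NumberField K] [Field M] [NumberField M]
    [Field K₁] [NumberField K₁] [Field M₁] [NumberField M₁] [Algebra K M] [Algebra K K₁]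
    [Algebra K M₁] [Algebra M M₁] [Algebra K₁ M₁] [IsScalarTower K M M₁] [IsScalarTower K K₁ M₁]
    [IsGalois K M] [IsGalois K K₁] [IsGalois K M₁] (ε : K₁), Tower p K M K₁ M₁ ε →
  ∀ (m : ℕ) (δ : M ≃ₐ[K] M) (ζ : k) (Φ : ℤ_[p][X]) (P : (ZMod p)[X]) [Fact (Irreducible P)],
    PhiData p m ζ Φ P → orderOf δ = m → finrank K M = m →
  ∀ (B : Base p K M K₁ M₁ ε δ P) (L : IwasawaLog p k) (T : Set (K →+* k)) (aτ : K₁ˣ)
    (E : Tau B L T aτ) (ψ₁ : AddChar (ZMod p) ℂ), ψ₁ ≠ 1 →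
  ∃ Xd : B.LP → ZMod p → (ZMod p)ˣ → Ideal (𝓞 K₁) → ℂ,
    (∀ (s : ZMod p) (e : (ZMod p)ˣ), s ≠ 0 →
      Chs (B.sys E) K₁ (modu p K₁ B.S)
        (fun q ↦ q.1.1.asIdeal.map (algebraMap (𝓞 K) (𝓞 K₁))) (finrank K K₁)
        {q | ¬ (B.sys E).spl q ∧ q.1.2 = e} {q | (B.sys E).spl q} (fun q ↦ B.Q q.1.1)
        (fun q ↦ Xd q s e)) ∧
    ∀ (s : ZMod p) (q q' : B.LP), (B.sys E).spl q → ¬ (B.sys E).spl q' →
      Xd q s q'.1.2 (B.Q q'.1.1).asIdeal = ψ₁ (s * (B.sys E).kap q q')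

/-- **B_SMF** (the functional of `sm`). Let `D` be a finite set of visible primes, `y v ≠ 0` for `v ∈ D`,
`D` not empty or `β ≠ 0`, and suppose that `f = fS B E β D y` is zero at the `u i`. Let
`Ψ = idl (x ↦ tr f(N_{M₁/M} x))`.

PROOF (from `B_CHR`, `B_IDN`, `B_KAP`, `B_CRT`, `B_NOR`, `B_LOG`, `B_NRM`, `P_UPR`, `RD.E_TOW`). `f` is a
`P`-functional (`hP`, `B_NRM`) and `til f = f` because `f(u_i) = 0`; so `f` kills the `S`-units, and
`f(x) = til f (x) = ∑ β_j til(h_j)(x) + ∑ y_v til(R_v)(x)` (`til` is linear): this is the third claim.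
*Psi*: `tr f(N x) = 0` for `S`-units `x` (`B_NOR` (1)); for `x = α ≡ 1 mod p³ ∏_S ∏_D`: `N α` satisfies
`LocS` (`B_NOR` (3)), so `h_j(N α) = 0` (`hL`), and for `v ∈ D` all the `δ^i(N α)` are `≡ 1` at `w v` (apply
`B_NOR` (3) to the primes above `v`), hence at `W v`, so `th v` vanishes there and `R_v(N α) = 0`. `B_CHR`.
*Nontriviality*. CLAIM: there is `x ∈ Mˣ` with `f(x) ≠ 0`; if `D` is not empty, `x = α₀ ∈ 𝓞_M` can be taken
prime to `p³ ∏_S ∏_D`. If `D = ∅` this is `hI`. Otherwise let `v₁ ∈ D`, `c` from `B_LOG` (2), `α₀` from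
`B_CRT` (`F = M`, `D ∖ {v₁}`, `w₀ = w v₁`). As before `h_j(α₀) = 0`, `R_v(α₀) = 0` for `v ∈ D`, `v ≠ v₁`;
`th v₁ (δ^i α₀) = 0` for `0 < i < m` (`w v₁` is free, so `δ^(-i)(w v₁) ≠ w v₁` and `δ^i α₀ ≡ 1`), and
`th v₁ (α₀) = 1`; so `R_{v₁}(α₀) = ξ^m = 1` and `f(α₀) = y_{v₁} ≠ 0`. Let `a = [M₁ : M]`, prime to `p`; for
`x ∈ Mˣ` regarded in `M₁`, `N(δ^j x) = (δ^j x)^a` and `tr f(N(δ^j x)) = tr(a ξ^j f(x))`, not zero for some
`j` by `B_KAP`; let `x' = δ^j x ∈ M₁ˣ`. If `D` is not empty take `I = (δ^j α₀)`, which is prime to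
`p³ ∏_S ∏_D` (stable under `Gal`), with `Ψ(I) = tr f(N x') ≠ 0` (`B_CHR`). If `D` is empty write the divisor
of `x'` outside `S` as that of `I₁` minus that of `I₂`, `I₁`, `I₂` nonzero ideals which are products of primes not
in `up M₁ S`; `Ψ(I₁) - Ψ(I₂) = tr f(N x') ≠ 0`, so one of them is not zero.
*Last claim*. Let `W` be above `q`, free. `W` is conjugate to `B.W q` (`P_UPR`): `W.valuation (g y) =
(B.W q).valuation y`. `g(z q)` has the divisor `W` outside `S`, so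
`Ψ(W) = tr f(N(g z_q)) = tr f(δ^i(N z_q)) = tr(ξ^i f(N z_q))`, `g = δ^i` on `M` (`B_NOR` (2)). -/
def B_SMF : Prop :=
  ∀ (p : ℕ) [Fact p.Prime] (k : Type) [NormedField k] [NormedAlgebra ℚ_[p] k]
    (K M K₁ M₁ : Type) [Field K] [NumberField K] [Field M] [NumberField M]
    [Field K₁] [NumberField K₁] [Field M₁] [NumberField M₁] [Algebra K M] [Algebra K K₁]
    [Algebra K M₁] [Algebra M M₁] [Algebra K₁ M₁] [IsScalarTower K M M₁] [IsScalarTower K K₁ M₁]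
    [IsGalois K M] [IsGalois K K₁] [IsGalois K M₁] (ε : K₁), Tower p K M K₁ M₁ ε →
  ∀ (m : ℕ) (δ : M ≃ₐ[K] M) (ζ : k) (Φ : ℤ_[p][X]) (P : (ZMod p)[X]), PhiData p m ζ Φ P →
    orderOf δ = m → finrank K M = m →
  ∀ (B : Base p K M K₁ M₁ ε δ P) (L : IwasawaLog p k) (T : Set (K →+* k)) (aτ : K₁ˣ)
    (E : Tau B L T aτ) (tr : AdjoinRoot P →ₗ[ZMod p] ZMod p), tr ≠ 0 →
  ∀ (β : Fin B.r → AdjoinRoot P) (D : Finset (HeightOneSpectrum (𝓞 K)))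
    (y : HeightOneSpectrum (𝓞 K) → AdjoinRoot P), (∀ v ∈ D, v ∈ B.Vis ∧ y v ≠ 0) →
    (D.Nonempty ∨ β ≠ 0) → (∀ i, fS B E β D y (B.u i) = 0) →
  Psi p (mD p M₁ B.S D) (idl (up M₁ B.S) (fun x ↦ tr (fS B E β D y (nrm M M₁ x)))) ∧
  (∃ I : Ideal (𝓞 M₁), I ≠ ⊥ ∧ I ⊔ mD p M₁ B.S D = ⊤ ∧
    idl (up M₁ B.S) (fun x ↦ tr (fS B E β D y (nrm M M₁ x))) I ≠ 0 ∧
    (D.Nonempty → ∃ α : 𝓞 M₁, I = Ideal.span {α})) ∧
  (∀ q ∈ B.Vis, fS B E β D y (nrm M M₁ (B.z q)) =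
    ∑ j, β j * B.til (E.h j) (nrm M M₁ (B.z q)) + ∑ v ∈ D, y v * B.A v q) ∧
  ∀ q ∈ B.Vis, fS B E β D y (nrm M M₁ (B.z q)) = 0 →
    ∀ W : HeightOneSpectrum (𝓞 M₁), Above W q → FreeP K W →
      idl (up M₁ B.S) (fun x ↦ tr (fS B E β D y (nrm M M₁ x))) W.asIdeal = 0

/-- **B_SM** (the field `sm` of `Sys.Hyp`).

PROOF (from `B_SMF`, `B_PRC`, `B_KAP`, `B_IDN`, `B_TRS`, `B_TRN`, `B_DRC`, `P_UPR`, `RS.S_PSM`, `RS.S_EUL`,
`A1_PRI`, `A1_FIX`). `M₁` is totally complex. Let `D, y, χ, n` be as in `sm`, `D₀ = bs(D)`, a finite set of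
visible primes, `y₀ v = y q` for the unique `q ∈ D` above `v ∈ D₀`. By `B_KAP` `χ(λ) = ψ₁(tr(∑ β_j λ_j))`, and
`β ≠ 0` if `χ ≠ 1`. Let `f = fS B E β D₀ y₀`. By definition `lam₀ x = (∑_i x_i h_j(u_i))_j`,
`res q x = ∑_i x_i R_q(u_i)`, so `fU x = ψ₁(tr(∑_i x_i f(u_i)))`. It is `1` for all `x`, so `tr(x f(u_i)) = 0`
for all `x ∈ κ` and `f(u_i) = 0` (`B_KAP`). By `B_SMF`, third claim,
`fB q t = ψ₁(tr(t f(N z_q)))` for split `q`; so there is `t` with `fB q t ≠ 1` if and only if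
`f(N z_q) ≠ 0` (`B_KAP`). Let `V` be the set of the visible `v ∉ D₀` with `f(N z_v) ≠ 0`. The right
side of `sm` is `(p - 1) ∑_{v ∈ V, N(v) < 2^n} 1/N(v)` (`bl q < n` iff `N q < 2^n`; `p - 1` labels).
Let `Ψ` be as in `B_SMF`, `𝔪 = mD p M₁ S D₀`, `X = chI 𝔪 ψ₁ Ψ`, a ray class character (`B_PRC`),
`X(I) ≠ 1` for some `I` prime to `𝔪`, which is principal if `D` is not empty. CLAIM: there is `C₁`,
depending only on `B`, `E`, with `∑_W Re X(W) N(W)^(-s) ≤ log(1 + log N(𝔪)) + C₁`, `1 < s ≤ 2`. If `D` is not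
empty this is `A1_PRI`; if `D = ∅` then `𝔪` and `f` depend only on `β`, finitely many possibilities, and
`A1_FIX` applies to each. `N(𝔪) = N(p³ ∏_S) (nm D)^[M₁ : K]` (`B_IDN`), so `log N(𝔪) ≤ C₂ log(nm D + 3)` and
`log(1 + log N(𝔪)) ≤ log log(nm D + 3) + C₃`. With `RS.S_PSM` for `M₁`:
`∑_W (1 - Re X(W)) N(W)^(-s) ≥ log(1/(s-1)) - log log(nm D + 3) - C₄`. The function `g = 1 - Re X` has values
in `[0, 2]` and vanishes at the free `W` above `v ∉ S ∪ D₀ ∪ V`: `v` is visible, `f(N z_v) = 0`, so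
`Ψ(W) = 0`, and `W` is prime to `𝔪` (`B_IDN`), `X(W) = 1`. So by `B_TRS` and `B_DRC`
`2 [M₁ : K] pz V s ≥ log(1/(s-1)) - C₅ log log(nm D + 3) - C₅` (`log log(nm D + 3) > 0`). For `n ≥ 2` and
`s = 1 + 1/(n log 2)`, `log(1/(s-1)) = log n + log log 2`, and `B_TRN` gives
`∑_{v ∈ V, N(v) < 2^n} 1/N(v) ≥ (log n)/(2 [M₁ : K]) - C₆ log log(nm D + 3) - C₆`. For `n = 1` the left side of
`sm` is `≤ 0`. Take `K₀ ≥ 2 [M₁ : K]`, `p C₆`, `1`; the left side of `sm` decreases with `K`. -/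
def B_SM : Prop :=
  ∀ (p : ℕ) [Fact p.Prime] (k : Type) [NormedField k] [NormedAlgebra ℚ_[p] k]
    (K M K₁ M₁ : Type) [Field K] [NumberField K] [IsTotallyComplex K] [Field M] [NumberField M]
    [Field K₁] [NumberField K₁] [Field M₁] [NumberField M₁] [Algebra K M] [Algebra K K₁]
    [Algebra K M₁] [Algebra M M₁] [Algebra K₁ M₁] [IsScalarTower K M M₁] [IsScalarTower K K₁ M₁]
    [IsGalois K M] [IsGalois K K₁] [IsGalois K M₁] (ε : K₁), Tower p K M K₁ M₁ ε →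
  ∀ (m : ℕ) (δ : M ≃ₐ[K] M) (ζ : k) (Φ : ℤ_[p][X]) (P : (ZMod p)[X]) [Fact (Irreducible P)],
    PhiData p m ζ Φ P → orderOf δ = m → finrank K M = m →
  ∀ (B : Base p K M K₁ M₁ ε δ P) (L : IwasawaLog p k) (T : Set (K →+* k)) (aτ : K₁ˣ)
    (E : Tau B L T aτ) (tr : AdjoinRoot P →ₗ[ZMod p] ZMod p) (ψ₁ : AddChar (ZMod p) ℂ),
    tr ≠ 0 → ψ₁ ≠ 1 →
  ∃ K₀ : ℕ, 1 ≤ K₀ ∧ ∀ K' : ℕ, K₀ ≤ K' → SmF (B.sys E) (psK tr ψ₁) K'

/-- **B_KUE** (the element of `kum`). Let `x ∈ κ^r` and `c` be a finitely supported function on the visible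
primes, not both zero. There is `X ∈ Mˣ`, not a `p`-th power in `M₁`, such that for every visible `v`
outside the support of `c` with `∑_i x_i R_v(u_i) + ∑_q c_q A(v, q) = 0`, `X` is locally a `p`-th power at
all free primes `W` above `v`.

PROOF (from `P_FUN`, `P_UPR`, `B_NOR`, `B_LOG`, `B_NRM`, `RD.E_TOW`). Let `z'_q = N_{M₁/M}(z q)`, `D` the support
of `c`, `a_i = x_i - ∑_{q ∈ D} c_q rho_i(z'_q)`, and `b_i, d_q ∈ F_p[X]` with `b_i(ξ) = a_i`, `d_q(ξ) = c_q`;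
`Y = ∏_i b_i(δ) u_i ∏_{q ∈ D} d_q(δ) z'_q`, `X = e(δ) Y`, `e ∈ F_p[X]` with `e ≡ 1 mod P`,
`(X^m - 1)/P ∣ e`. For a `P`-functional `F`: `F(X) = e(ξ) F(Y) = ∑ a_i F(u_i) + ∑_q c_q F(z'_q)` (`P_FUN` (1)).
`P(δ) X` is a `p`-th power (see `B_NRM`).
*Symbols.* `R_v(X) = ∑ a_i R_v(u_i) + ∑_q c_q R_v(z'_q) = ∑ x_i R_v(u_i) + ∑_q c_q til(R_v)(z'_q)
= ∑ x_i R_v(u_i) + ∑_q c_q A(v, q)`. Suppose that it is `0`, `v` visible, `v ∉ D`, and let `W` be above `v`,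
free: `W.valuation (g y) = (W v).valuation y` for some `g` (`P_UPR`), `g⁻¹ = δ^i` on `M`. By `P_FUN` (3)
`th v (δ^i X) = 0`. The valuations of the `u_i` and of the `z'_q` (`q ≠ v`; `B_NOR` (4)) are `0` at the
primes above `v`, so `ord_{W v}(δ^i X) = 0`, and `LocPow p (W v) (δ^i X)` by `B_LOG` (3). Apply `g`:
`LocPow p W X`.
*Not a `p`-th power.* If `X = y^p` with `y ∈ M₁` then `X^a = N(y)^p`, `a = [M₁ : M]` prime to `p`, so `X`
is a `p`-th power in `M` and all `P`-functionals vanish at `X`. If `c_q ≠ 0` for some `q ∈ D` consider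
the `P`-functional `nv q` (`P_FUN` (2)): it is zero at the `u_i` and at the `z'_{q'}`, `q' ≠ q`, and
`nv q (z'_q) = ξ^m = 1` (`w q` is free: `ord_{w q}(δ^i z'_q) = 1` if `i = 0`, `0` if `0 < i < m`), so
`nv q (X) = c_q ≠ 0`. If `c = 0` then `rho_j(X) = x_j`, not all zero. -/
def B_KUE : Prop :=
  ∀ (p : ℕ) [Fact p.Prime] (k : Type) [NormedField k] [NormedAlgebra ℚ_[p] k]
    (K M K₁ M₁ : Type) [Field K] [NumberField K] [Field M] [NumberField M]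
    [Field K₁] [NumberField K₁] [Field M₁] [NumberField M₁] [Algebra K M] [Algebra K K₁]
    [Algebra K M₁] [Algebra M M₁] [Algebra K₁ M₁] [IsScalarTower K M M₁] [IsScalarTower K K₁ M₁]
    [IsGalois K M] [IsGalois K K₁] [IsGalois K M₁] (ε : K₁), Tower p K M K₁ M₁ ε →
  ∀ (m : ℕ) (δ : M ≃ₐ[K] M) (ζ : k) (Φ : ℤ_[p][X]) (P : (ZMod p)[X]), PhiData p m ζ Φ P →
    orderOf δ = m → finrank K M = m →
  ∀ (B : Base p K M K₁ M₁ ε δ P) (x : Fin B.r → AdjoinRoot P)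
    (D : Finset (HeightOneSpectrum (𝓞 K))) (c : HeightOneSpectrum (𝓞 K) → AdjoinRoot P),
    (∀ q ∈ D, q ∈ B.Vis ∧ c q ≠ 0) → (D.Nonempty ∨ x ≠ 0) →
  ∃ X₀ : Mˣ, (¬ ∃ y : M₁, y ^ p = algebraMap M M₁ (X₀ : M)) ∧
    ∀ v ∈ B.Vis, v ∉ D → ∑ i, x i * B.R v (B.u i) + ∑ q ∈ D, c q * B.A v q = 0 →
      ∀ W : HeightOneSpectrum (𝓞 M₁), Above W v → FreeP K W →
        LocPow p W (algebraMap M M₁ (X₀ : M))

/-- **B_KUM** (the field `kum` of `Sys.Hyp`).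

PROOF (from `B_KUE`, `B_TRS`, `B_TRN`, `P_UPR`, `RSP.SP_KUM`, `RS.S_PSM`). Let `x, c, T` be as in `kum`, `D` the set
of the bases of the support of `c` (`bs` is injective on it), `c₀ v = c q` for `q` in the support above `v`,
and `X₀` from `B_KUE`. Let `V` be the set of the visible `v ∉ D` with
`∑_i x_i R_v(u_i) + ∑_{q ∈ D} c₀(q) A(v, q) ≠ 0`; the sum in `kum` is
`(p - 1) ∑_{v ∈ V, N(v) < 2^n} 1/N(v) ≥ ∑_{v ∈ V, N(v) < 2^n} 1/N(v)`. Let `g(W) = 0` if `W.valuation p < 1` or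
`LocPow p W X₀`, and `g(W) = 1` otherwise. `g` vanishes at the free `W` above `v ∉ S ∪ D ∪ V` (`v` is
visible). By `SP_KUM` for `M₁` (`ε ∈ M₁`), `RS.S_PSM` and since only finitely many `W` are above `p`:
`∑_W g(W) N(W)^(-s) ≥ (1 - 1/p) log(1/(s-1)) - C`. So by `B_TRS`
`pz V s ≥ (1 - 1/p) log(1/(s-1))/(2 [M₁ : K]) - C'` with `C'` depending on `x`, `c`, and by `B_TRN` with
`s = 1 + 1/(n log 2)`: `∑_{v ∈ V, N(v) < 2^n} 1/N(v) ≥ (1 - 1/p) log(n log 2)/(2 [M₁ : K]) - C''`, which tends to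
infinity with `n`. -/
def B_KUM : Prop :=
  ∀ (p : ℕ) [Fact p.Prime] (k : Type) [NormedField k] [NormedAlgebra ℚ_[p] k]
    (K M K₁ M₁ : Type) [Field K] [NumberField K] [Field M] [NumberField M]
    [Field K₁] [NumberField K₁] [Field M₁] [NumberField M₁] [Algebra K M] [Algebra K K₁]
    [Algebra K M₁] [Algebra M M₁] [Algebra K₁ M₁] [IsScalarTower K M M₁] [IsScalarTower K K₁ M₁]
    [IsGalois K M] [IsGalois K K₁] [IsGalois K M₁] (ε : K₁), Tower p K M K₁ M₁ ε →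
  ∀ (m : ℕ) (δ : M ≃ₐ[K] M) (ζ : k) (Φ : ℤ_[p][X]) (P : (ZMod p)[X]) [Fact (Irreducible P)],
    PhiData p m ζ Φ P → orderOf δ = m → finrank K M = m →
  ∀ (B : Base p K M K₁ M₁ ε δ P) (L : IwasawaLog p k) (T : Set (K →+* k)) (aτ : K₁ˣ)
    (E : Tau B L T aτ), KumF (B.sys E)

end Pool.Agent.Helper76.PP
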