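import Pool.Agent.Helper76.PP.UPV
import Pool.Agent.Helper42.PP1.Goals3
import Pool.Agent.Helper42.PP1.LOG
import Pool.Agent.Helper42.PP1.NRM
import Pool.Agent.Helper96.PP.BCHR
import Pool.Agent.Helper94.PP.BIDN
import Pool.Agent.Helper56.PP.BCRT
import Pool.Agent.Helper32.PP.BNOR
import Pool.Agent.Helper16.PP.PUPR

/-!
# Project PP, the case `m = 1`: W_UPV
-/

set_option autoImplicit false

namespace Pool.Agent.Helper76.PP

open NumberField Polynomial Module IsDedekindDomain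
open Pool.Agent.Helper51.RP Pool.Agent.Helper42.RD Pool.Agent.Helper42.PP Pool.Agent.Helper42.PP1
open Pool.Agent.Helper40.RS (bel gw bel_smul lies conj_of_bel free_gw absNorm_free val_smul)
open Pool.Agent.Helper13.RD (eq_gw ram_free eq_of_val)
open Pool.Agent.Helper40.RD (bel_of_above ordW)

/-- The function `δ^i ↦ ξ^(m-i)`. -/
theorem exists_chr0 {p : ℕ} {P : (ZMod p)[X]} {K M : Type} [Field K] [NumberField K] [Field M]
    [NumberField M] [Algebra K M]
    [FiniteDimensional K M] [IsGalois K M] (δ : M ≃ₐ[K] M) (m : ℕ) (hδ : orderOf δ = m)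
    (hm : finrank K M = m) (h1 : AdjoinRoot.root P ^ m = 1) :
    ∃ c : (M ≃ₐ[K] M) → AdjoinRoot P, ∀ i ≤ m, c (δ ^ i) = AdjoinRoot.root P ^ (m - i) := by
  have hm0 : 0 < m := by rw [← hm]; exact finrank_pos
  have hgen : ∀ g : M ≃ₐ[K] M, ∃ i : ℕ, i < m ∧ δ ^ i = g := by
    intro g
    obtain ⟨i, hi, hg⟩ := exists_pow δ (by rw [hδ, hm]) g
    exact ⟨i, by rwa [hm] at hi, hg⟩
  choose ix hix1 hix2 using hgen
  refine ⟨fun τ ↦ AdjoinRoot.root P ^ (m - ix τ), fun i hi ↦ ?_⟩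
  dsimp only
  rcases Nat.lt_or_ge i m with h | h
  · have e1 : ix (δ ^ i) = i := by
      have e2 := hix2 (δ ^ i)
      have e3 := hix1 (δ ^ i)
      rw [← hδ] at e3 h
      exact pow_injOn_Iio_orderOf e3 h e2
    rw [e1]
  · have hi' : i = m := le_antisymm hi h
    subst hi'
    have e1 : ix (δ ^ i) = 0 := by
      have e2 := hix2 (δ ^ i)
      have e3 := hix1 (δ ^ i)
      rw [← hδ, pow_orderOf_eq_one, ← pow_zero δ] at e2
      have e4 : (ix (δ ^ 0)) ∈ Set.Iio (orderOf δ) := by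
        rw [hδ]; exact hix1 _
      have e5 : ix (δ ^ 0) = 0 := pow_injOn_Iio_orderOf e4 (by
        show 0 < orderOf δ
        rw [hδ]; exact hm0) e2
      have e6 : δ ^ i = δ ^ 0 := by
        rw [pow_zero, ← hδ, pow_orderOf_eq_one]
      rw [e6]
      exact e5
    rw [e1, Nat.sub_zero, Nat.sub_self, h1, pow_zero]

theorem w_upv : W_UPV := by
  classical
  have hUPR := Pool.Agent.Helper16.PP.p_upr
  have hCHR := Pool.Agent.Helper96.PP.b_chr
  have hIDN := Pool.Agent.Helper94.PP.b_idn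
  have hCRT := Pool.Agent.Helper56.PP.b_crt hUPR hIDN
  have hNOR := Pool.Agent.Helper32.PP.b_nor hUPR
  intro p _ K M K₁ M₁ _ _ _ _ _ _ _ _ _ _ _ _ _ ε δ P hs hNT B tr htr v hv η γ
  have := hs.st1
  have := hs.st2
  have := hs.gM
  have := hs.gK
  have := hs.gMK
  set m : ℕ := finrank K M with hmdef
  have hm : finrank K M = m := rfl
  have hδ : orderOf δ = m := hs.ord
  obtain ⟨c, hc1⟩ := exists_chr0 (P := P) δ m hδ hm (root_pow_m m hs.dvdP)
  obtain ⟨hN1, hN2, hN3⟩ := w_nrm p K M K₁ M₁ ε δ P hs B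
  obtain ⟨hL1, ⟨c₀, hc₀, hL2⟩, -⟩ := w_log p K M K₁ M₁ ε δ P hs B v hv
  obtain ⟨hR, hG⟩ := hN3 v hv
  obtain ⟨htR, htR0, htR1⟩ := hN1 _ hR
  obtain ⟨htG, htG0, htG1⟩ := hN2 _ hG
  obtain ⟨hWv, hWQ, hWw, hWf⟩ := B.Wa v hv
  have hvS : v ∉ B.S := hv.1
  obtain ⟨hI1, hI2, -⟩ := hIDN p K M₁ B.S B.abp
  obtain ⟨hn1, hn2, hn3, -⟩ := hNOR p K M M₁ B.S
  obtain ⟨hn1', hn2', hn3', hn4'⟩ := hNOR p K K₁ M₁ B.S
  -- the functional
  have hf : Hom (fU B tr v η γ) := by
    intro x y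
    unfold fU
    rw [MonoidHom.map_mul, MonoidHom.map_mul, htR.1, htG.1, mul_add, mul_add, LinearMap.map_add]
    abel
  have hf0 : ∀ x ∈ (up M₁ B.S).unit M₁, fU B tr v η γ x = 0 := by
    intro x hx
    unfold fU
    rw [htR0 _ (hn1 x hx), htG0 _ (hn1' x hx), mul_zero, mul_zero, map_zero, add_zero]
  -- the value at `x = α ≡ 1`
  have hf1 : ∀ (x : M₁ˣ) (α : 𝓞 M₁), (x : M₁) = α → α - 1 ∈ modu p M₁ B.S →
      fU B tr v η γ x = ∑ g : M₁ ≃ₐ[K] M₁, (tr (η * c (AlgEquiv.restrictNormalHom M g)) +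
        γ * (nsig p ε (AlgEquiv.restrictNormalHom K₁ g))⁻¹) * B.th v (act g x) := by
    intro x α hx hα
    have e1 := (hn3 x α hx).1 hα
    have e2 := (hn3' x α hx).1 hα
    unfold fU
    rw [htR1 _ e1, htG1 _ e2, tr_R B hNOR m hδ hm tr hv c hc1 η x, G_nrm B hNOR hv x,
      Finset.mul_sum, ← Finset.sum_add_distrib]
    refine Finset.sum_congr rfl fun g _ ↦ ?_
    ring
  have hf2 : ∀ (x : M₁ˣ) (α : 𝓞 M₁), (x : M₁) = α →
      α - 1 ∈ modu p M₁ B.S * v.asIdeal.map (algebraMap (𝓞 K) (𝓞 M₁)) →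
      fU B tr v η γ x = 0 := by
    intro x α hx hα
    have hα1 : α - 1 ∈ modu p M₁ B.S := (Ideal.mul_le_left (I := modu p M₁ B.S)
      (J := v.asIdeal.map (algebraMap (𝓞 K) (𝓞 M₁)))) hα
    have hα2 : α - 1 ∈ v.asIdeal.map (algebraMap (𝓞 K) (𝓞 M₁)) :=
      (Ideal.mul_le_right (I := modu p M₁ B.S)
        (J := v.asIdeal.map (algebraMap (𝓞 K) (𝓞 M₁)))) hα
    rw [hf1 x α hx hα1]
    refine Finset.sum_eq_zero fun g _ ↦ ?_
    have e0 : B.th v (act g x) = 0 := by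
      apply hL1
      have e1 : ((act g x : M₁ˣ) : M₁) = g (α : M₁) := by rw [← hx]; rfl
      rw [e1]
      exact val_act_lt g v (B.W v) hWv α hα2
    rw [e0, mul_zero]
  have h𝔪 : modu p M₁ B.S * v.asIdeal.map (algebraMap (𝓞 K) (𝓞 M₁)) ≠ ⊥ :=
    mul_ne_zero hI1 (hI2 v).1
  obtain ⟨-, -, hC1, hC2, hC3⟩ := hCHR p M₁ (up M₁ B.S) B.prMK _ h𝔪 (fU B tr v η γ) hf hf0 hf2
  refine ⟨hC1, fun q hq ↦ ?_, fun hη ↦ ?_⟩
  · -- value at `W q`
    obtain ⟨hq1, hq2, hq3, hq4⟩ := B.Wa q hq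
    have e1 : psU B tr v η γ (B.W q).asIdeal = fU B tr v η γ (B.z q) :=
      hC3 (B.W q) (B.z q) (B.zo q hq)
    rw [e1]
    unfold fU Base.A Base.pi
    have hqK : q ∈ Spl K₁ B.S := by
      have hqp : q.valuation K (p : K) = 1 := by
        refine le_antisymm ?_ (not_lt.1 fun h ↦ hq.1 (B.abp q h))
        have := q.valuation_le_one (K := K) (p : 𝓞 K)
        simpa using this
      have := ((hs.vis q hqp).1 (B.W q) hq1 hq4).2.2 (B.Q q) hq2
      exact ⟨hq.1, B.Q q, this.2.2, this.1⟩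
    have e2 : B.tilw (B.G v) (nrm K₁ M₁ (B.z q)) = B.tilw (B.G v) (B.y q) := by
      have e3 : nrm K₁ M₁ (B.z q) / B.y q ∈ (up K₁ B.S).unit K₁ := by
        intro w hw
        have e4 := hn4' q (B.W q) (B.Q q) hq.1 hq1 hq2 hq4 (B.z q) (B.zo q hq) w hw
        have e5 := B.yo q hqK w hw
        have e6 : ordv w ((nrm K₁ M₁ (B.z q) : K₁ˣ) : K₁) = ordv w (B.y q : K₁) := by
          by_cases h : w = B.Q q
          · rw [e4.1 h, e5.1 h]
          · rw [e4.2 h, e5.2 h]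
        have e7 : w.valuation K₁ ((nrm K₁ M₁ (B.z q) : K₁ˣ) : K₁) = w.valuation K₁ (B.y q : K₁) := by
          unfold ordv at e6
          have a1 : w.valuation K₁ ((nrm K₁ M₁ (B.z q) : K₁ˣ) : K₁) ≠ 0 := by
            rw [Valuation.ne_zero_iff]; exact Units.ne_zero _
          have a2 : w.valuation K₁ (B.y q : K₁) ≠ 0 := by
            rw [Valuation.ne_zero_iff]; exact Units.ne_zero _
          rw [← WithZero.exp_log a1, ← WithZero.exp_log a2, neg_injective e6]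
        change w.valuation K₁ ((nrm K₁ M₁ (B.z q) / B.y q : K₁ˣ) : K₁) = 1
        rw [Units.val_div_eq_div_val, map_div₀, e7, div_self]
        rw [Valuation.ne_zero_iff]; exact Units.ne_zero _
      have e8 := htG.1 (nrm K₁ M₁ (B.z q) / B.y q) (B.y q)
      rw [div_mul_cancel, htG0 _ e3, zero_add] at e8
      exact e8
    rw [e2]
  · -- nontriviality
    have hex : ∃ g : M₁ ≃ₐ[K] M₁, tr (η * c (AlgEquiv.restrictNormalHom M g)) +
        γ * (nsig p ε (AlgEquiv.restrictNormalHom K₁ g))⁻¹ ≠ 0 := by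
      obtain ⟨g, i, σ, hi, h1, h2, h3⟩ := hNT tr htr η γ hη
      refine ⟨g, ?_⟩
      rw [restr_eq (E := M) g (δ ^ i) h1, restr_eq (E := K₁) g σ h2, hc1 i hi.le]
      exact h3
    obtain ⟨g, hg⟩ := hex
    obtain ⟨W', hW1, hW2⟩ := exists_pull (K := K) (B.W v) g
    have hW' : Above W' v := by
      rw [bel_of_above hWv] at hW2
      rw [← hW2]; rfl
    obtain ⟨α, hα0, hα1, hα2, hα3, hα4, -⟩ := hCRT p K M₁ B.S ∅ B.abp v hvS (Finset.notMem_empty _)
      c₀ hc₀ W' hW'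
    have hα1' : α - 1 ∈ modu p M₁ B.S := by
      unfold mD at hα1
      simpa using hα1
    refine ⟨α, hα1', hα4, ?_⟩
    have hα0' : (α : M₁) ≠ 0 := by
      intro h
      exact hα0 (RingOfIntegers.coe_eq_zero_iff.1 h)
    set x : M₁ˣ := Units.mk0 (α : M₁) hα0' with hx
    have e0 : psU B tr v η γ (Ideal.span {α}) = fU B tr v η γ x := hC2 x α rfl
    rw [e0, hf1 x α rfl hα1', Finset.sum_eq_single g]
    · have e1 : B.th v (act g x) = 1 := by
        apply hL2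
        change (B.W v).valuation M₁ (g (α : M₁) - algebraMap K M₁ (c₀ : K)) < 1
        have e2 : g (α : M₁) - algebraMap K M₁ (c₀ : K) =
            g ((α - algebraMap (𝓞 K) (𝓞 M₁) c₀ : 𝓞 M₁) : M₁) := by
          have e3 : ((α - algebraMap (𝓞 K) (𝓞 M₁) c₀ : 𝓞 M₁) : M₁) =
              (α : M₁) - algebraMap K M₁ (c₀ : K) := rfl
          rw [e3, map_sub g, g.commutes]
        rw [e2, hW1]
        exact (val_of_ord _).1 hα2
      rw [e1, mul_one]
      exact hg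
    · intro g' _ hg'
      obtain ⟨W'', hW1', hW2'⟩ := exists_pull (K := K) (B.W v) g'
      have hW'' : Above W'' v := by
        rw [bel_of_above hWv] at hW2'
        rw [← hW2']; rfl
      have hne : W'' ≠ W' := by
        intro h
        apply hg'
        have h1 : g' * g⁻¹ = 1 := by
          apply hWf
          intro y
          rw [AlgEquiv.mul_apply, hW1', h, ← hW1, ← AlgEquiv.mul_apply, mul_inv_cancel]
          rfl
        exact mul_inv_eq_one.1 h1
      have e1 : B.th v (act g' x) = 0 := by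
        apply hL1
        change (B.W v).valuation M₁ (g' (α : M₁) - 1) < 1
        have e2 : g' (α : M₁) - 1 = g' ((α - 1 : 𝓞 M₁) : M₁) := by
          have e3 : ((α - 1 : 𝓞 M₁) : M₁) = (α : M₁) - 1 := rfl
          rw [e3, map_sub g', map_one]
        rw [e2, hW1']
        exact (val_of_ord _).1 (hα3 W'' hW'' hne)
      rw [e1, mul_zero]
    · intro h
      exact absurd (Finset.mem_univ _) h

end Pool.Agent.Helper76.PP
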