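import Pool.Agent.Helper76.PP.SMc
import Pool.Agent.Helper42.PP1.Defs

/-!
# Project PP, packet B_SM: the field `sm` for `sysN`
-/

set_option autoImplicit false

namespace Pool.Agent.Helper76.PP

open NumberField Polynomial Module IsDedekindDomain
open Pool.Agent.Helper51.RP Pool.Agent.Helper42.RD Pool.Agent.Helper42.PP Pool.Agent.Helper42.PP1
open Pool.Agent.Helper51.SigLeo (IwasawaLog)
open Pool.Agent.Helper38.RS (pz)
open Pool.Agent.Helper51.PP (RC Chs)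
open Pool.Agent.Helper94.PP (A1_PRI A1_FIX NTP)

/-- Addition to `SmF`: monotonicity in the constant. -/
theorem smF_of {p : ℕ} {B B₀ k U Λ C : Type} [Field k] [AddCommGroup U] [Module k U]
    [AddCommGroup Λ] [Module k Λ] [AddCommGroup C] (S : Pool.Agent.Helper17.PP.Sys p B B₀ k U Λ C)
    (ψ : AddChar k ℂ) {K₀ K' : ℕ} (h0 : 1 ≤ K₀) (h : K₀ ≤ K') (hS : SmF S ψ K₀) : SmF S ψ K' := by
  intro D y χ n hn h1 h2 h3 h4
  refine le_trans ?_ (hS D y χ n hn h1 h2 h3 h4)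
  have hK : (K₀ : ℝ) ≤ K' := by exact_mod_cast h
  have hK0 : (1 : ℝ) ≤ K₀ := by exact_mod_cast h0
  have hl : 0 ≤ Real.log n := Real.log_nonneg (by exact_mod_cast hn)
  have hN : (0 : ℝ) ≤ (S.nm D : ℝ) := by positivity
  have hll : 0 ≤ Real.log (Real.log (S.nm D + 3)) := by
    apply Real.log_nonneg
    rw [Real.le_log_iff_exp_le (by positivity)]
    have := Real.exp_one_lt_d9
    linarith
  have e1 : (1 / K' : ℝ) * Real.log n ≤ (1 / K₀ : ℝ) * Real.log n :=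
    mul_le_mul_of_nonneg_right (one_div_le_one_div_of_le (by linarith) hK) hl
  have e2 : (K₀ : ℝ) * Real.log (Real.log (S.nm D + 3)) ≤
      K' * Real.log (Real.log (S.nm D + 3)) := mul_le_mul_of_nonneg_right hK hll
  linarith

variable {p : ℕ} [Fact p.Prime] {k : Type} [NormedField k] {K M K₁ M₁ : Type} [Field K]
    [NumberField K] [Field M] [NumberField M] [Field K₁] [NumberField K₁] [Field M₁]
    [NumberField M₁] [Algebra K M] [Algebra K K₁] [Algebra K M₁] [Algebra M M₁] [Algebra K₁ M₁]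
    {ε : K₁} {δ : M ≃ₐ[K] M} {P : (ZMod p)[X]} {n : ℕ}
    (B : Base p K M K₁ M₁ ε δ P) {L : IwasawaLog p k} {T : Set (K →+* k)} {aτ : K₁ˣ}

/-- The `P`-functional `∑_j β_j h_j + ∑_{v ∈ D} y_v R_v` on `Mˣ`, for `TauN`. -/
noncomputable def fN (E : TauN n B L T aτ) (β : Fin n → AdjoinRoot P)
    (D : Finset (HeightOneSpectrum (𝓞 K))) (y : HeightOneSpectrum (𝓞 K) → AdjoinRoot P) (x : Mˣ) :
    AdjoinRoot P :=
  ∑ j, β j * E.h j x + ∑ v ∈ D, y v * B.R v x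

/-- The conclusion of `B_SMF`. -/
def SmfC (E : TauN n B L T aτ) (tr : AdjoinRoot P →ₗ[ZMod p] ZMod p) : Prop :=
  ∀ (β : Fin n → AdjoinRoot P) (D : Finset (HeightOneSpectrum (𝓞 K)))
    (y : HeightOneSpectrum (𝓞 K) → AdjoinRoot P), (∀ v ∈ D, v ∈ B.Vis ∧ y v ≠ 0) →
    (D.Nonempty ∨ β ≠ 0) → (∀ i, fN B E β D y (B.u i) = 0) →
  Psi p (mD p M₁ B.S D) (idl (up M₁ B.S) (fun x ↦ tr (fN B E β D y (nrm M M₁ x)))) ∧
  (∃ I : Ideal (𝓞 M₁), I ≠ ⊥ ∧ I ⊔ mD p M₁ B.S D = ⊤ ∧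
    idl (up M₁ B.S) (fun x ↦ tr (fN B E β D y (nrm M M₁ x))) I ≠ 0 ∧
    (D.Nonempty → ∃ α : 𝓞 M₁, I = Ideal.span {α})) ∧
  (∀ q ∈ B.Vis, fN B E β D y (nrm M M₁ (B.z q)) =
    ∑ j, β j * B.til (E.h j) (nrm M M₁ (B.z q)) + ∑ v ∈ D, y v * B.A v q) ∧
  ∀ q ∈ B.Vis, fN B E β D y (nrm M M₁ (B.z q)) = 0 →
    ∀ W : HeightOneSpectrum (𝓞 M₁), Above W q → FreeP K W →
      idl (up M₁ B.S) (fun x ↦ tr (fN B E β D y (nrm M M₁ x))) W.asIdeal = 0

variable [Fact (Irreducible P)]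


theorem sm_gen (hPRC : B_PRC) (hIDN : B_IDN) (hTRS : B_TRS) (hTRN : B_TRN) (hDRC : B_DRC)
    (hPRI : A1_PRI) (hFIX : A1_FIX) [IsGalois K M₁] [IsTotallyComplex M₁]
    (E : TauN n B L T aτ) (hVc : B.Vis ⊆ B.calP)
    (tr : AdjoinRoot P →ₗ[ZMod p] ZMod p) (ψ₁ : AddChar (ZMod p) ℂ)
    (hk1 : ∀ η : AdjoinRoot P, (∀ x, tr (x * η) = 0) → η = 0)
    (hk2 : ∀ a : ZMod p, ψ₁ a = 1 → a = 0)
    (hk3 : ∀ χ : AddChar (Fin n → AdjoinRoot P) ℂ, ∃ β : Fin n → AdjoinRoot P,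
        ∀ x, χ x = ψ₁ (tr (∑ j, β j * x j)))
    (hS : SmfC B E tr) :
    ∃ K₀ : ℕ, 1 ≤ K₀ ∧ ∀ K' : ℕ, K₀ ≤ K' → SmF (sysN B E) (psK tr ψ₁) K' := by
  classical
  obtain ⟨C₁, hC₁⟩ := hPRI M₁
  -- the finitely many characters for `D = ∅`
  have hfinκ : Finite (AdjoinRoot P) := by
    have hP0 : P ≠ 0 := (Fact.out : Irreducible P).ne_zero
    have : Module.Finite (ZMod p) (AdjoinRoot P) := (AdjoinRoot.powerBasis hP0).finite
    exact Module.finite_of_finite (ZMod p)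
  have hF : ∀ β : Fin n → AdjoinRoot P, ∃ C : ℝ, (β ≠ 0 ∧ ∀ i, fN B E β ∅ 0 (B.u i) = 0) →
      ∀ s : ℝ, 1 < s → s ≤ 2 → ∑' W : HeightOneSpectrum (𝓞 M₁),
        (chI (mD p M₁ B.S ∅) ψ₁ (idl (up M₁ B.S)
          (fun x ↦ tr (fN B E β ∅ 0 (nrm M M₁ x)))) W.asIdeal).re *
            (Ideal.absNorm W.asIdeal : ℝ) ^ (-s) ≤ C := by
    intro β
    by_cases h : β ≠ 0 ∧ ∀ i, fN B E β ∅ 0 (B.u i) = 0
    · obtain ⟨hpsi, ⟨I, hI1, hI2, hI3, -⟩, -, -⟩ := hS β ∅ 0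
        (fun v hv ↦ absurd hv (Finset.notMem_empty v)) (Or.inr h.1) h.2
      obtain ⟨C, hC⟩ := hFIX M₁ _ _ (hPRC p M₁ _ _ hpsi ψ₁) ⟨I, hI1, hI2, by
        unfold chI
        rw [if_pos ⟨hI1, hI2⟩]
        exact fun h ↦ hI3 (hk2 _ h)⟩
      exact ⟨C, fun _ ↦ hC⟩
    · exact ⟨0, fun h' ↦ absurd h' h⟩
  choose CF hCF using hF
  obtain ⟨C₂, hC₂⟩ : ∃ C₂ : ℝ, ∀ β, CF β ≤ C₂ := by
    have : Finite (Fin n → AdjoinRoot P) := Pi.finite
    obtain ⟨b, hb⟩ := (Set.finite_range CF).bddAbove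
    exact ⟨b, fun β ↦ hb ⟨β, rfl⟩⟩
  obtain ⟨C, hC0, hC⟩ := sm_core hIDN hTRS hTRN hDRC p K M₁ B.S B.abp B.unr (max C₁ C₂)
  set d : ℕ := finrank K M₁ with hd
  obtain ⟨K₀, hK₀⟩ := exists_nat_ge (C + 2 * d + 1)
  have hd1 : 1 ≤ d := by
    have hfd : FiniteDimensional K M₁ := Module.Finite.of_restrictScalars_finite ℚ K M₁
    exact finrank_pos (R := K) (M := M₁)
  have hd1' : (1 : ℝ) ≤ d := by exact_mod_cast hd1
  have hK1 : (1 : ℝ) ≤ K₀ := by linarith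
  refine ⟨K₀, by exact_mod_cast hK1, fun K' hK' ↦ smF_of _ _ (by exact_mod_cast hK1) hK' ?_⟩
  intro D y χ m hm hD hinj hne hU
  have hDs : ∀ q ∈ D, q.1.1 ∈ B.Vis := fun q hq ↦ (hD q hq).1
  obtain ⟨β, hβ⟩ := hk3 χ
  have hβ0 : χ ≠ 1 → β ≠ 0 := by
    intro h1 h2
    apply h1
    ext x
    rw [hβ x, h2]
    simp
  -- the bases
  set D₀ : Finset (HeightOneSpectrum (𝓞 K)) := D.image (fun q ↦ q.1.1) with hD₀
  set y₀ : HeightOneSpectrum (𝓞 K) → AdjoinRoot P := fun v ↦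
    if h : ∃ q ∈ D, q.1.1 = v then y h.choose else 0 with hy₀
  have hy₀q : ∀ q ∈ D, y₀ q.1.1 = y q := by
    intro q hq
    have h : ∃ q' ∈ D, q'.1.1 = q.1.1 := ⟨q, hq, rfl⟩
    rw [hy₀]
    simp only
    rw [dif_pos h]
    congr 1
    exact hinj h.choose_spec.1 hq h.choose_spec.2
  have hsum : ∀ G : HeightOneSpectrum (𝓞 K) → AdjoinRoot P,
      ∑ v ∈ D₀, y₀ v * G v = ∑ q ∈ D, y q * G q.1.1 := by
    intro G
    rw [hD₀, Finset.sum_image (g := fun q : B.LP ↦ q.1.1) (fun a ha b hb h ↦ hinj ha hb h)]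
    exact Finset.sum_congr rfl fun q hq ↦ by rw [hy₀q q hq]
  have hnm : ((∏ v ∈ D₀, Ideal.absNorm v.asIdeal : ℕ) : ℝ) = (((sysN B E).nm D : ℕ) : ℝ) := by
    rw [hD₀, Finset.prod_image (g := fun q : B.LP ↦ q.1.1) (fun a ha b hb h ↦ hinj ha hb h)]
    rfl
  have hDV : ∀ v ∈ D₀, v ∈ B.Vis ∧ y₀ v ≠ 0 := by
    intro v hv
    rw [hD₀, Finset.mem_image] at hv
    obtain ⟨q, hq, rfl⟩ := hv
    refine ⟨hDs q hq, ?_⟩
    rw [hy₀q q hq]
    exact (hD q hq).2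
  have hne' : D₀.Nonempty ∨ β ≠ 0 := by
    rcases hne with h | h
    · left; rw [hD₀, Finset.image_nonempty]; exact h
    · right; exact hβ0 h
  -- `f(u_i) = 0`
  have hψ : ∀ (s : Finset B.LP) (G : B.LP → AdjoinRoot P),
      ∏ q ∈ s, psK tr ψ₁ (G q) = ψ₁ (tr (∑ q ∈ s, G q)) := by
    intro s G
    rw [map_sum]
    change ∏ q ∈ s, ψ₁ (tr (G q)) = _
    induction s using Finset.induction_on with
    | empty => rw [Finset.prod_empty, Finset.sum_empty, AddChar.map_zero_eq_one]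
    | insert a s ha ih =>
      rw [Finset.prod_insert ha, Finset.sum_insert ha, AddChar.map_add_eq_mul, ih]
  have hfu : ∀ i, fN B E β D₀ y₀ (B.u i) = 0 := by
    intro i
    apply hk1
    intro x
    have h1 := hU (Pi.single i x)
    unfold Pool.Agent.Helper17.PP.Sys.fU at h1
    rw [hψ, hβ, ← AddChar.map_add_eq_mul, ← map_add] at h1
    have h2 := hk2 _ h1
    rw [← h2]
    congr 1
    unfold fN
    rw [hsum (fun v ↦ B.R v (B.u i)), mul_add, Finset.mul_sum, Finset.mul_sum]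
    congr 1
    · refine Finset.sum_congr rfl fun j _ ↦ ?_
      have h3 : (sysN B E).lam₀ (Pi.single i x) j = x * E.h j (B.u i) := by
        change (∑ i', (LinearMap.proj (R := AdjoinRoot P) (φ := fun _ : Fin B.r ↦ AdjoinRoot P)
          i').smulRight (E.h j (B.u i'))) (Pi.single i x) = _
        rw [LinearMap.sum_apply, Finset.sum_eq_single i]
        · simp
        · intro b _ hb
          simp [Pi.single_eq_of_ne hb]
        · intro h; exact absurd (Finset.mem_univ _) h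
      rw [h3]; ring
    · refine Finset.sum_congr rfl fun q _ ↦ ?_
      have h3 : (sysN B E).res q (Pi.single i x) = x * B.R q.1.1 (B.u i) := by
        change (∑ i', (LinearMap.proj (R := AdjoinRoot P) (φ := fun _ : Fin B.r ↦ AdjoinRoot P)
          i').smulRight (B.R q.1.1 (B.u i'))) (Pi.single i x) = _
        rw [LinearMap.sum_apply, Finset.sum_eq_single i]
        · simp
        · intro b _ hb
          simp [Pi.single_eq_of_ne hb]
        · intro h; exact absurd (Finset.mem_univ _) h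
      rw [h3]; ring
  obtain ⟨hpsi, ⟨I, hI1, hI2, hI3, hI4⟩, hval, hW⟩ := hS β D₀ y₀ hDV hne' hfu
  -- the values `fB`
  have hfB : ∀ q : B.LP, q.1.1 ∈ B.Vis → fN B E β D₀ y₀ (nrm M M₁ (B.z q.1.1)) ≠ 0 →
      ∃ t, (sysN B E).fB (psK tr ψ₁) χ D y q t ≠ 1 := by
    intro q hq h0
    by_contra hcon
    push Not at hcon
    apply h0
    apply hk1
    intro t
    have h1 := hcon t
    unfold Pool.Agent.Helper17.PP.Sys.fB at h1
    rw [hψ, hβ, ← AddChar.map_add_eq_mul, ← map_add] at h1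
    have h2 := hk2 _ h1
    rw [← h2]
    congr 1
    rw [hval q.1.1 hq, hsum (fun v ↦ B.A v q.1.1), mul_add, Finset.mul_sum, Finset.mul_sum]
    congr 1
    · refine Finset.sum_congr rfl fun j _ ↦ ?_
      change t * (β j * B.til (E.h j) (nrm M M₁ (B.z q.1.1))) =
        β j * (t • B.til (E.h j) (nrm M M₁ (B.z q.1.1)))
      rw [smul_eq_mul]; ring
    · refine Finset.sum_congr rfl fun q' _ ↦ ?_
      change t * (y q' * B.A q'.1.1 q.1.1) = y q' * (t * B.A q'.1.1 q.1.1)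
      ring
  -- `m = 1`
  have hnm1 : (1 : ℝ) ≤ (((sysN B E).nm D : ℕ) : ℝ) := by
    rw [← hnm]
    have : 1 ≤ ∏ v ∈ D₀, Ideal.absNorm v.asIdeal :=
      Nat.one_le_iff_ne_zero.2 (Finset.prod_ne_zero_iff.2 fun v _ ↦ (absNorm_pos' v).ne')
    exact_mod_cast this
  have hll : 0 ≤ Real.log (Real.log (((sysN B E).nm D : ℕ) + 3)) := by
    apply Real.log_nonneg
    rw [Real.le_log_iff_exp_le (by positivity)]
    have := Real.exp_one_lt_d9
    linarith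
  rcases Nat.lt_or_ge m 2 with hm2 | hm2
  · have hm1 : m = 1 := by omega
    subst hm1
    have hpos : (0 : ℝ) ≤ ∑ q ∈ (sysN B E).below 1 with ((sysN B E).spl q ∧
        (∀ q' ∈ D, (sysN B E).bs q' ≠ (sysN B E).bs q) ∧
        ∃ t, (sysN B E).fB (psK tr ψ₁) χ D y q t ≠ 1), (1 : ℝ) / (sysN B E).N q :=
      Finset.sum_nonneg fun q _ ↦ by positivity
    refine le_trans ?_ hpos
    rw [Nat.cast_one, Real.log_one, mul_zero]
    have : 0 ≤ (K₀ : ℝ) * Real.log (Real.log (((sysN B E).nm D : ℕ) + 3)) := by positivity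
    linarith
  -- the set `V`
  set V : Set (HeightOneSpectrum (𝓞 K)) :=
    {v | v ∈ B.Vis ∧ v ∉ D₀ ∧ fN B E β D₀ y₀ (nrm M M₁ (B.z v)) ≠ 0} with hV
  have hAfin : {v : HeightOneSpectrum (𝓞 K) | v ∈ V ∧ Ideal.absNorm v.asIdeal < 2 ^ m}.Finite := by
    have h : {v : HeightOneSpectrum (𝓞 K) | Ideal.absNorm v.asIdeal ≤ 2 ^ m}.Finite := by
      refine Set.Finite.of_finite_image (f := HeightOneSpectrum.asIdeal) ?_ ?_
      · refine (Ideal.finite_setOfPred_absNorm_le (S := 𝓞 K) (2 ^ m)).subset ?_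
        rintro _ ⟨v, hv, rfl⟩
        exact hv
      · intro v _ w _ h
        exact HeightOneSpectrum.ext h
    exact h.subset fun v hv ↦ hv.2.le
  set A : Finset (HeightOneSpectrum (𝓞 K)) := hAfin.toFinset with hA
  have hAm : ∀ v, v ∈ A ↔ v ∈ V ∧ Ideal.absNorm v.asIdeal < 2 ^ m := by
    intro v
    rw [hA, Set.Finite.mem_toFinset]
    rfl
  -- the character
  set Ψ : Ideal (𝓞 M₁) → ZMod p :=
    idl (up M₁ B.S) (fun x ↦ tr (fN B E β D₀ y₀ (nrm M M₁ x))) with hΨ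
  set X : Ideal (𝓞 M₁) → ℂ := chI (mD p M₁ B.S D₀) ψ₁ Ψ with hX
  have hRC : RC (mD p M₁ B.S D₀) X := hPRC p M₁ _ _ hpsi ψ₁
  have hXI : X I ≠ 1 := by
    rw [hX]
    unfold chI
    rw [if_pos ⟨hI1, hI2⟩]
    exact fun h ↦ hI3 (hk2 _ h)
  have hbound : ∀ s : ℝ, 1 < s → s ≤ 2 → ∑' W : HeightOneSpectrum (𝓞 M₁),
      (X W.asIdeal).re * (Ideal.absNorm W.asIdeal : ℝ) ^ (-s) ≤
        Real.log (1 + Real.log (Ideal.absNorm (mD p M₁ B.S D₀))) + max C₁ C₂ := by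
    intro s hs1 hs2
    by_cases hDe : D₀.Nonempty
    · obtain ⟨α, hα⟩ := hI4 hDe
      have hNT : NTP (mD p M₁ B.S D₀) X := by
        refine ⟨α, ?_, ?_, ?_⟩
        · intro h
          apply hI1
          rw [hα, h]
          simp
        · rw [← hα]; exact hI2
        · rw [← hα]; exact hXI
      have := hC₁ _ X hRC hNT s hs1 hs2
      have h2 := le_max_left C₁ C₂
      linarith
    · have hD0 : D₀ = ∅ := Finset.not_nonempty_iff_eq_empty.1 hDe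
      have hβne : β ≠ 0 := hne'.resolve_left hDe
      have hfe : ∀ x, fN B E β D₀ y₀ x = fN B E β ∅ 0 x := by
        intro x
        unfold fN
        rw [hD0, Finset.sum_empty, Finset.sum_empty]
      have h1 := hCF β ⟨hβne, fun i ↦ by rw [← hfe]; exact hfu i⟩ s hs1 hs2
      have h2 : X = chI (mD p M₁ B.S ∅) ψ₁ (idl (up M₁ B.S)
          (fun x ↦ tr (fN B E β ∅ 0 (nrm M M₁ x)))) := by
        rw [hX, hΨ]
        simp only [hfe]
        rw [hD0]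
      rw [h2]
      have h3 := hC₂ β
      have h4 := le_max_right C₁ C₂
      have h5 : 0 ≤ Real.log (1 + Real.log (Ideal.absNorm (mD p M₁ B.S D₀))) := by
        apply Real.log_nonneg
        have h6 : (1 : ℝ) ≤ (Ideal.absNorm (mD p M₁ B.S D₀) : ℝ) := by
          have : Ideal.absNorm (mD p M₁ B.S D₀) ≠ 0 := by
            rw [Ne, Ideal.absNorm_eq_zero_iff]
            exact hRC.ne
          exact_mod_cast Nat.one_le_iff_ne_zero.2 this
        have := Real.log_nonneg h6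
        linarith
      linarith
  have hX1 : ∀ (W : HeightOneSpectrum (𝓞 M₁)) (v : HeightOneSpectrum (𝓞 K)), Above W v →
      FreeP K W → v ∉ B.S → v ∉ D₀ → v ∉ V → X W.asIdeal = 1 := by
    intro W v h1 h2 h3 h4 h5
    have hvis : v ∈ B.Vis := ⟨h3, W, h1, h2⟩
    have h6 : fN B E β D₀ y₀ (nrm M M₁ (B.z v)) = 0 := by
      by_contra h0
      exact h5 ⟨hvis, h4, h0⟩
    have h7 := hW v hvis h6 W h1 h2
    rw [hX]
    unfold chI
    have h8 := (hIDN p K M₁ B.S B.abp).2.2 v D₀ h3 h4 W h1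
    rw [if_pos ⟨W.ne_bot, h8⟩, h7, AddChar.map_zero_eq_one]
  have hmain := hC D₀ V X hRC hbound hX1 m A hm2 hAm
  rw [hnm] at hmain
  -- comparison of the constants
  have hlogm : 0 ≤ Real.log m := Real.log_nonneg (by
    have : (2 : ℝ) ≤ m := by exact_mod_cast hm2
    linarith)
  have hKC : C ≤ K₀ := by linarith
  have hKd : 2 * (d : ℝ) ≤ K₀ := by linarith
  have e1 : (1 / K₀ : ℝ) * Real.log m ≤ 1 / (2 * (d : ℝ)) * Real.log m :=
    mul_le_mul_of_nonneg_right (one_div_le_one_div_of_le (by linarith) hKd) hlogm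
  have e2 : C * Real.log (Real.log (((sysN B E).nm D : ℕ) + 3)) ≤
      K₀ * Real.log (Real.log (((sysN B E).nm D : ℕ) + 3)) := mul_le_mul_of_nonneg_right hKC hll
  have e3 : (1 / K₀ : ℝ) * Real.log m -
      K₀ * Real.log (Real.log (((sysN B E).nm D : ℕ) + 3)) - K₀ ≤
      ∑ v ∈ A, (1 : ℝ) / Ideal.absNorm v.asIdeal := by linarith
  refine e3.trans ?_
  -- comparison of the sums
  have hVA : ∀ v ∈ A, v ∈ B.calP := fun v hv ↦ hVc ((hAm v).1 hv).1.1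
  set q₀ : {v // v ∈ A} → B.LP := fun v ↦ ⟨(v.1, 1), hVA v.1 v.2⟩ with hq₀
  have hq₀i : Function.Injective q₀ := by
    intro v v' h
    apply Subtype.ext
    have h6 := congrArg (fun q : B.LP ↦ q.1.1) h
    exact h6
  have hAs : ∑ v ∈ A, (1 : ℝ) / Ideal.absNorm v.asIdeal =
      ∑ q ∈ A.attach.image q₀, (1 : ℝ) / ((sysN B E).N q : ℝ) := by
    rw [← Finset.sum_attach A, Finset.sum_image (g := q₀) (fun v _ v' _ h ↦ hq₀i h)]
    rfl
  rw [hAs]
  refine Finset.sum_le_sum_of_subset_of_nonneg ?_ (fun q _ _ ↦ by positivity)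
  intro q hq
  rw [Finset.mem_image] at hq
  obtain ⟨v, -, rfl⟩ := hq
  obtain ⟨⟨hvis, hvD, hvne⟩, hvn⟩ := (hAm v.1).1 v.2
  have hN : (sysN B E).N (q₀ v) = Ideal.absNorm v.1.asIdeal := rfl
  rw [Finset.mem_filter]
  refine ⟨?_, hvis, ?_, hfB (q₀ v) hvis hvne⟩
  · unfold Pool.Agent.Helper17.PP.Sys.below Pool.Agent.Helper17.PP.Sys.bl
    rw [Finset.mem_filter, Set.Finite.mem_toFinset]
    refine ⟨?_, ?_⟩
    · show (sysN B E).N (q₀ v) ≤ 2 ^ m
      rw [hN]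
      exact hvn.le
    · rw [hN]
      refine Nat.log_lt_of_lt_pow ?_ hvn
      rw [Ne, Ideal.absNorm_eq_zero_iff]
      exact v.1.ne_bot
  · intro q' hq' h
    apply hvD
    rw [hD₀, Finset.mem_image]
    exact ⟨q', hq', h⟩

end Pool.Agent.Helper76.PP
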