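import Pool.Agent.Helper42.PP1.Goals3
import Pool.Agent.Helper42.PP.NZY

/-!
# Project PP, the case `m = 1`: the condition NTV
-/

set_option autoImplicit false

namespace Pool.Agent.Helper76.PP

open NumberField Polynomial Module IsDedekindDomain
open Pool.Agent.Helper51.RP Pool.Agent.Helper42.RD Pool.Agent.Helper42.PP Pool.Agent.Helper42.PP1

theorem root_one {p : ℕ} : AdjoinRoot.root (X - 1 : (ZMod p)[X]) = 1 := by
  have h1 : AdjoinRoot.mk (X - 1 : (ZMod p)[X]) (X - 1) = 0 := AdjoinRoot.mk_self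
  rw [map_sub, map_one, AdjoinRoot.mk_X, sub_eq_zero] at h1
  exact h1

theorem scalar_of {p : ℕ} (y : AdjoinRoot (X - 1 : (ZMod p)[X])) :
    ∃ a : ZMod p, y = a • (1 : AdjoinRoot (X - 1 : (ZMod p)[X])) := by
  obtain ⟨f, rfl⟩ := AdjoinRoot.mk_surjective y
  refine ⟨f.eval 1, ?_⟩
  have h1 : AdjoinRoot.mk (X - 1 : (ZMod p)[X]) f =
      AdjoinRoot.mk (X - 1 : (ZMod p)[X]) (C (f.eval 1)) := by
    rw [AdjoinRoot.mk_eq_mk]
    have h2 : (X - C (1 : ZMod p)) ∣ f - C (f.eval 1) := by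
      rw [dvd_iff_isRoot]
      simp
    rwa [map_one] at h2
  rw [h1, Algebra.smul_def, mul_one]
  rfl

/-- The condition `NTV` for `M = K`, `M₁ = K₁ ≠ K`. -/
theorem ntv_one (p : ℕ) [Fact p.Prime] (K K₁ : Type) [Field K] [NumberField K] [Field K₁]
    [NumberField K₁] [Algebra K K₁] [IsGalois K K₁] (ε : K₁) (hε : IsPrimitiveRoot ε p)
    (hgen : ∀ σ : K₁ ≃ₐ[K] K₁, σ ε = ε → σ = 1) (hnt : 1 < finrank K K₁) :
    NTV p (K := K) (M := K) (K₁ := K₁) K₁ ε (1 : K ≃ₐ[K] K) (X - 1 : (ZMod p)[X]) := by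
  have hp : p.Prime := Fact.out
  intro tr htr η γ hη
  obtain ⟨a, ha⟩ := scalar_of η
  have h1 : tr 1 ≠ 0 := by
    intro h
    apply htr
    ext y
    obtain ⟨b, hb⟩ := scalar_of y
    rw [hb, map_smul, h, smul_zero]
    rfl
  have ha0 : a ≠ 0 := by
    intro h
    apply hη
    rw [ha, h, zero_smul]
  have htη : tr η ≠ 0 := by
    rw [ha, map_smul, smul_eq_mul]
    exact mul_ne_zero ha0 h1
  have key : ∃ σ : K₁ ≃ₐ[K] K₁, tr η + γ * (nsig p ε σ)⁻¹ ≠ 0 := by
    by_contra hcon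
    push Not at hcon
    have hcard : 1 < Nat.card (K₁ ≃ₐ[K] K₁) := by
      rw [IsGalois.card_aut_eq_finrank]; exact hnt
    have : Nontrivial (K₁ ≃ₐ[K] K₁) := Finite.one_lt_card_iff_nontrivial.1 hcard
    obtain ⟨σ, hσ⟩ := exists_ne (1 : K₁ ≃ₐ[K] K₁)
    have e1 : nsig p ε (1 : K₁ ≃ₐ[K] K₁) = 1 := by
      rw [nsig_eq hε hp.one_lt 1 1 (by rw [pow_one]; rfl), Nat.cast_one]
    have hroot : (σ ε) ^ p = 1 := by rw [← map_pow, hε.pow_eq_one, map_one]
    obtain ⟨n, -, hn⟩ := hε.eq_pow_of_pow_eq_one hroot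
    have e2 : nsig p ε σ = n := nsig_eq hε hp.one_lt σ n hn.symm
    have e3 := hcon 1
    have e4 := hcon σ
    rw [e1, inv_one, mul_one] at e3
    rw [e2] at e4
    have hγ : γ ≠ 0 := by
      intro h
      apply htη
      rw [h, add_zero] at e3
      exact e3
    have e5 : ((n : ZMod p))⁻¹ = 1 := by
      have e6 : γ * ((n : ZMod p))⁻¹ = γ * 1 := by
        rw [mul_one]
        linear_combination e4 - e3
      exact mul_left_cancel₀ hγ e6
    have e7 : (n : ZMod p) = 1 := by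
      rw [← inv_inv (n : ZMod p), e5, inv_one]
    apply hσ
    apply hgen
    rw [← hn]
    have e8 : (n : ZMod p) = ((1 : ℕ) : ZMod p) := by rw [e7, Nat.cast_one]
    rw [ZMod.natCast_eq_natCast_iff] at e8
    have e9 : ε ^ n = ε ^ 1 := by
      have hm : ∀ i : ℕ, ε ^ (i % p) = ε ^ i := by
        intro i
        have h3 := pow_mod_orderOf ε i
        rwa [← hε.eq_orderOf] at h3
      rw [← hm n, ← hm 1]
      rw [show n % p = 1 % p from e8]
    rw [e9, pow_one]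
  obtain ⟨σ, hσ⟩ := key
  refine ⟨σ, 0, σ, ?_, ?_, ?_, ?_⟩
  · rw [Module.finrank_self]; exact Nat.one_pos
  · intro y
    rw [pow_zero]
    exact σ.commutes y
  · intro y
    rfl
  · rw [root_one, one_pow, mul_one]
    exact hσ

end Pool.Agent.Helper76.PP
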