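import Pool.Agent.Helper76.PP.Fun2

/-!
# Project PP: packet B_UPV
-/

set_option autoImplicit false

namespace Pool.Agent.Helper76.PP

open NumberField Polynomial Module IsDedekindDomain
open Pool.Agent.Helper51.RP Pool.Agent.Helper42.RD Pool.Agent.Helper42.PP
open Pool.Agent.Helper40.RS (bel gw bel_smul lies conj_of_bel free_gw absNorm_free val_smul)
open Pool.Agent.Helper13.RD (eq_gw ram_free eq_of_val)
open Pool.Agent.Helper40.RD (bel_of_above ordW)

section stab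

variable {K F : Type} [Field K] [NumberField K] [Field F] [NumberField F] [Algebra K F]

/-- The extension of an ideal of `K` is stable under automorphisms. -/
theorem act_mem (g : F ≃ₐ[K] F) (I : Ideal (𝓞 K)) (α : 𝓞 F)
    (h : α ∈ I.map (algebraMap (𝓞 K) (𝓞 F))) :
    RingOfIntegers.mapRingHom (g : F →+* F) α ∈ I.map (algebraMap (𝓞 K) (𝓞 F)) := by
  have h1 : RingOfIntegers.mapRingHom (g : F →+* F) α ∈
      (I.map (algebraMap (𝓞 K) (𝓞 F))).map (RingOfIntegers.mapRingHom (g : F →+* F)) :=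
    Ideal.mem_map_of_mem _ h
  rw [Ideal.map_map] at h1
  have h2 : (RingOfIntegers.mapRingHom (g : F →+* F)).comp (algebraMap (𝓞 K) (𝓞 F)) =
      algebraMap (𝓞 K) (𝓞 F) := by
    ext x
    change g (algebraMap K F (x : K)) = algebraMap K F (x : K)
    exact g.commutes _
  rwa [h2] at h1

/-- If `α ≡ 1 mod v` then `g α ≡ 1` at every prime above `v`. -/
theorem val_act_lt (g : F ≃ₐ[K] F) (v : HeightOneSpectrum (𝓞 K)) (W : HeightOneSpectrum (𝓞 F))
    (hW : Above W v) (α : 𝓞 F) (h : α - 1 ∈ v.asIdeal.map (algebraMap (𝓞 K) (𝓞 F))) :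
    W.valuation F (g (α : F) - 1) < 1 := by
  have h1 := act_mem g v.asIdeal _ h
  have h2 : v.asIdeal.map (algebraMap (𝓞 K) (𝓞 F)) ≤ W.asIdeal := by
    rw [Ideal.map_le_iff_le_comap]
    exact le_of_eq hW.symm
  have h3 := (val_of_ord _).1 (h2 h1)
  have h4 : ((RingOfIntegers.mapRingHom (g : F →+* F) (α - 1) : 𝓞 F) : F) = g (α : F) - 1 := by
    change g (((α - 1 : 𝓞 F)) : F) = _
    have h5 : (((α - 1 : 𝓞 F)) : F) = (α : F) - 1 := rfl
    rw [h5, map_sub g, map_one]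
  rwa [h4] at h3

end stab


theorem b_upv (hCHR : B_CHR) (hIDN : B_IDN) (hKAP : B_KAP) (hCRT : B_CRT) (hNOR : B_NOR)
    (hLOG : B_LOG) (hNRM : B_NRM) (hVIS : P_VIS) : B_UPV := by
  classical
  intro p _ k _ _ K M K₁ M₁ _ _ _ _ _ _ _ _ _ _ _ _ _ _ _ _ _ _ ε hT m δ ζ Φ P hP hδ hm B tr htr
    v hv η γ
  obtain ⟨hk1, hk2, -, -, hk3⟩ := hKAP p k m ζ Φ P hP
  obtain ⟨c, hc1, hc2, hc3, hc4⟩ := exists_chr δ m hδ hm hP.one_lt hk1 hk2
  obtain ⟨hN1, hN2, hN3⟩ := hNRM p k K M K₁ M₁ ε hT m δ ζ Φ P hP hδ hm B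
  obtain ⟨hL1, ⟨c₀, hc₀, hL2⟩, -⟩ := hLOG p K M K₁ M₁ ε hT δ P B v hv
  obtain ⟨hR, hG⟩ := hN3 v hv
  obtain ⟨htR, htR0, htR1⟩ := hN1 _ hR
  obtain ⟨htG, htG0, htG1⟩ := hN2 _ hG
  obtain ⟨hWv, hWQ, hWw, hWf⟩ := B.Wa v hv
  have hvS : v ∉ B.S := hv.1
  obtain ⟨hI1, hI2, -⟩ := hIDN p K M₁ B.S B.abp
  obtain ⟨hn1, hn2, hn3, -⟩ := hNOR p K M M₁ B.S
  obtain ⟨hn1', hn2', hn3', hn4'⟩ := hNOR p K K₁ M₁ B.S
  -- the functional
  have hf : Hom (fU B tr v η γ) := by
    intro x y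
    unfold fU
    rw [MonoidHom.map_mul, MonoidHom.map_mul, htR.1, htG.1, mul_add, mul_add, LinearMap.map_add]
    abel
  have hf0 : ∀ x ∈ (up M₁ B.S).unit M₁, fU B tr v η γ x = 0 := by
    intro x hx
    unfold fU
    rw [htR0 _ (hn1 x hx), htG0 _ (hn1' x hx), mul_zero, mul_zero, map_zero, add_zero]
  -- the value at `x = α ≡ 1`
  have hf1 : ∀ (x : M₁ˣ) (α : 𝓞 M₁), (x : M₁) = α → α - 1 ∈ modu p M₁ B.S →
      fU B tr v η γ x = ∑ g : M₁ ≃ₐ[K] M₁, (tr (η * c (AlgEquiv.restrictNormalHom M g)) +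
        γ * (nsig p ε (AlgEquiv.restrictNormalHom K₁ g))⁻¹) * B.th v (act g x) := by
    intro x α hx hα
    have e1 := (hn3 x α hx).1 hα
    have e2 := (hn3' x α hx).1 hα
    unfold fU
    rw [htR1 _ e1, htG1 _ e2, tr_R B hNOR m hδ hm tr hv c hc1 η x, G_nrm B hNOR hv x,
      Finset.mul_sum, ← Finset.sum_add_distrib]
    refine Finset.sum_congr rfl fun g _ ↦ ?_
    ring
  have hf2 : ∀ (x : M₁ˣ) (α : 𝓞 M₁), (x : M₁) = α →
      α - 1 ∈ modu p M₁ B.S * v.asIdeal.map (algebraMap (𝓞 K) (𝓞 M₁)) →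
      fU B tr v η γ x = 0 := by
    intro x α hx hα
    have hα1 : α - 1 ∈ modu p M₁ B.S := (Ideal.mul_le_left (I := modu p M₁ B.S)
      (J := v.asIdeal.map (algebraMap (𝓞 K) (𝓞 M₁)))) hα
    have hα2 : α - 1 ∈ v.asIdeal.map (algebraMap (𝓞 K) (𝓞 M₁)) :=
      (Ideal.mul_le_right (I := modu p M₁ B.S)
        (J := v.asIdeal.map (algebraMap (𝓞 K) (𝓞 M₁)))) hα
    rw [hf1 x α hx hα1]
    refine Finset.sum_eq_zero fun g _ ↦ ?_
    have e0 : B.th v (act g x) = 0 := by
      apply hL1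
      have e1 : ((act g x : M₁ˣ) : M₁) = g (α : M₁) := by rw [← hx]; rfl
      rw [e1]
      exact val_act_lt g v (B.W v) hWv α hα2
    rw [e0, mul_zero]
  have h𝔪 : modu p M₁ B.S * v.asIdeal.map (algebraMap (𝓞 K) (𝓞 M₁)) ≠ ⊥ :=
    mul_ne_zero hI1 (hI2 v).1
  obtain ⟨-, -, hC1, hC2, hC3⟩ := hCHR p M₁ (up M₁ B.S) B.prMK _ h𝔪 (fU B tr v η γ) hf hf0 hf2
  refine ⟨hC1, fun q hq ↦ ?_, fun hη ↦ ?_⟩
  · -- value at `W q`
    obtain ⟨hq1, hq2, hq3, hq4⟩ := B.Wa q hq
    have e1 : psU B tr v η γ (B.W q).asIdeal = fU B tr v η γ (B.z q) :=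
      hC3 (B.W q) (B.z q) (B.zo q hq)
    rw [e1]
    unfold fU Base.A Base.pi
    have hqK : q ∈ Spl K₁ B.S := by
      have hqp : q.valuation K (p : K) = 1 := by
        refine le_antisymm ?_ (not_lt.1 fun h ↦ hq.1 (B.abp q h))
        have := q.valuation_le_one (K := K) (p : 𝓞 K)
        simpa using this
      have := ((hVIS p K M K₁ M₁ ε hT q hqp).1 (B.W q) hq1 hq4).2.2 (B.Q q) hq2
      exact ⟨hq.1, B.Q q, this.2.2, this.1⟩
    have e2 : B.tilw (B.G v) (nrm K₁ M₁ (B.z q)) = B.tilw (B.G v) (B.y q) := by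
      have e3 : nrm K₁ M₁ (B.z q) / B.y q ∈ (up K₁ B.S).unit K₁ := by
        intro w hw
        have e4 := hn4' q (B.W q) (B.Q q) hq.1 hq1 hq2 hq4 (B.z q) (B.zo q hq) w hw
        have e5 := B.yo q hqK w hw
        have e6 : ordv w ((nrm K₁ M₁ (B.z q) : K₁ˣ) : K₁) = ordv w (B.y q : K₁) := by
          by_cases h : w = B.Q q
          · rw [e4.1 h, e5.1 h]
          · rw [e4.2 h, e5.2 h]
        have e7 : w.valuation K₁ ((nrm K₁ M₁ (B.z q) : K₁ˣ) : K₁) = w.valuation K₁ (B.y q : K₁) := by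
          unfold ordv at e6
          have a1 : w.valuation K₁ ((nrm K₁ M₁ (B.z q) : K₁ˣ) : K₁) ≠ 0 := by
            rw [Valuation.ne_zero_iff]; exact Units.ne_zero _
          have a2 : w.valuation K₁ (B.y q : K₁) ≠ 0 := by
            rw [Valuation.ne_zero_iff]; exact Units.ne_zero _
          rw [← WithZero.exp_log a1, ← WithZero.exp_log a2, neg_injective e6]
        change w.valuation K₁ ((nrm K₁ M₁ (B.z q) / B.y q : K₁ˣ) : K₁) = 1
        rw [Units.val_div_eq_div_val, map_div₀, e7, div_self]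
        rw [Valuation.ne_zero_iff]; exact Units.ne_zero _
      have e8 := htG.1 (nrm K₁ M₁ (B.z q) / B.y q) (B.y q)
      rw [div_mul_cancel, htG0 _ e3, zero_add] at e8
      exact e8
    rw [e2]
  · -- nontriviality
    have hex : ∃ g : M₁ ≃ₐ[K] M₁, tr (η * c (AlgEquiv.restrictNormalHom M g)) +
        γ * (nsig p ε (AlgEquiv.restrictNormalHom K₁ g))⁻¹ ≠ 0 := by
      by_contra hcon
      push Not at hcon
      have : IsGalois K₁ M₁ := IsGalois.tower_top_of_isGalois K K₁ M₁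
      have hcard : 1 < Nat.card (M₁ ≃ₐ[K₁] M₁) := by
        rw [IsGalois.card_aut_eq_finrank]; exact hT.nt
      obtain ⟨g₁, hg₁⟩ : ∃ g₁ : M₁ ≃ₐ[K₁] M₁, g₁ ≠ 1 := by
        have : Nontrivial (M₁ ≃ₐ[K₁] M₁) := Finite.one_lt_card_iff_nontrivial.1 hcard
        exact exists_ne 1
      set g₀ : M₁ ≃ₐ[K] M₁ := g₁.restrictScalars K with hg₀
      have hr₁ : AlgEquiv.restrictNormalHom K₁ g₀ = 1 := by
        refine restr_eq _ _ fun y ↦ ?_
        rw [hg₀]
        simp
      have hr₂ : AlgEquiv.restrictNormalHom M g₀ ≠ 1 := by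
        intro h
        apply hg₁
        have h1 : g₀ = 1 := by
          apply hT.lin
          · intro x
            rw [restr_spec (E := M) g₀ x, h]; rfl
          · intro x
            rw [hg₀]
            simp
        ext x
        have := congrArg (fun u : M₁ ≃ₐ[K] M₁ ↦ u x) h1
        simpa [hg₀] using this
      have h1 : ∀ g : M₁ ≃ₐ[K] M₁,
          tr (η * (c (AlgEquiv.restrictNormalHom M g₀) - 1) *
            c (AlgEquiv.restrictNormalHom M g)) = 0 := by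
        intro g
        have e1 := hcon g
        have e2 := hcon (g₀ * g)
        rw [MonoidHom.map_mul, MonoidHom.map_mul, hr₁, one_mul, hc2] at e2
        have e3 : η * (c (AlgEquiv.restrictNormalHom M g₀) - 1) *
            c (AlgEquiv.restrictNormalHom M g) =
            η * (c (AlgEquiv.restrictNormalHom M g₀) * c (AlgEquiv.restrictNormalHom M g)) -
              η * c (AlgEquiv.restrictNormalHom M g) := by ring
        rw [e3, map_sub]
        linear_combination e2 - e1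
      have h2 : η * (c (AlgEquiv.restrictNormalHom M g₀) - 1) = 0 := by
        refine (hk3 tr htr).1 _ fun j ↦ ?_
        obtain ⟨τ, hτ⟩ := hc4 j
        obtain ⟨g, hg⟩ := AlgEquiv.restrictNormalHom_surjective (F := K) (K₁ := M) M₁ τ
        rw [← hτ, ← hg]
        exact h1 g
      have : Fact (Irreducible P) := ⟨hP.irr⟩
      rcases mul_eq_zero.1 h2 with h3 | h3
      · exact hη h3
      · exact hr₂ (hc3 _ (sub_eq_zero.1 h3))
    obtain ⟨g, hg⟩ := hex
    obtain ⟨W', hW1, hW2⟩ := exists_pull (K := K) (B.W v) g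
    have hW' : Above W' v := by
      rw [bel_of_above hWv] at hW2
      rw [← hW2]; rfl
    obtain ⟨α, hα0, hα1, hα2, hα3, hα4, -⟩ := hCRT p K M₁ B.S ∅ B.abp v hvS (Finset.notMem_empty _)
      c₀ hc₀ W' hW'
    have hα1' : α - 1 ∈ modu p M₁ B.S := by
      unfold mD at hα1
      simpa using hα1
    refine ⟨α, hα1', hα4, ?_⟩
    have hα0' : (α : M₁) ≠ 0 := by
      intro h
      exact hα0 (RingOfIntegers.coe_eq_zero_iff.1 h)
    set x : M₁ˣ := Units.mk0 (α : M₁) hα0' with hx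
    have e0 : psU B tr v η γ (Ideal.span {α}) = fU B tr v η γ x := hC2 x α rfl
    rw [e0, hf1 x α rfl hα1', Finset.sum_eq_single g]
    · have e1 : B.th v (act g x) = 1 := by
        apply hL2
        change (B.W v).valuation M₁ (g (α : M₁) - algebraMap K M₁ (c₀ : K)) < 1
        have e2 : g (α : M₁) - algebraMap K M₁ (c₀ : K) =
            g ((α - algebraMap (𝓞 K) (𝓞 M₁) c₀ : 𝓞 M₁) : M₁) := by
          have e3 : ((α - algebraMap (𝓞 K) (𝓞 M₁) c₀ : 𝓞 M₁) : M₁) =
              (α : M₁) - algebraMap K M₁ (c₀ : K) := rfl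
          rw [e3, map_sub g, g.commutes]
        rw [e2, hW1]
        exact (val_of_ord _).1 hα2
      rw [e1, mul_one]
      exact hg
    · intro g' _ hg'
      obtain ⟨W'', hW1', hW2'⟩ := exists_pull (K := K) (B.W v) g'
      have hW'' : Above W'' v := by
        rw [bel_of_above hWv] at hW2'
        rw [← hW2']; rfl
      have hne : W'' ≠ W' := by
        intro h
        apply hg'
        have h1 : g' * g⁻¹ = 1 := by
          apply hWf
          intro y
          rw [AlgEquiv.mul_apply, hW1', h, ← hW1, ← AlgEquiv.mul_apply, mul_inv_cancel]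
          rfl
        exact mul_inv_eq_one.1 h1
      have e1 : B.th v (act g' x) = 0 := by
        apply hL1
        change (B.W v).valuation M₁ (g' (α : M₁) - 1) < 1
        have e2 : g' (α : M₁) - 1 = g' ((α - 1 : 𝓞 M₁) : M₁) := by
          have e3 : ((α - 1 : 𝓞 M₁) : M₁) = (α : M₁) - 1 := rfl
          rw [e3, map_sub g', map_one]
        rw [e2, hW1']
        exact (val_of_ord _).1 (hα3 W'' hW'' hne)
      rw [e1, mul_zero]
    · intro h
      exact absurd (Finset.mem_univ _) h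

end Pool.Agent.Helper76.PP
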