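import Pool.Agent.Helper42.PP1.Goals3
import Pool.Agent.Helper22.PP.POMG

/-!
# Project PP, stage 2: the condition NTV in general

`NTV` holds as soon as `ξ ^ i ≠ n(σ)` for one element `g` of `Gal(M₁/K)` which is `δ ^ i` on `M` and
`σ` on `K₁`; that is, as soon as the character is not conjugate to the cyclotomic character.
-/

set_option autoImplicit false

namespace Pool.Agent.Helper76.PP

open NumberField Polynomial Module IsDedekindDomain
open Pool.Agent.Helper51.RP Pool.Agent.Helper42.RD Pool.Agent.Helper42.PP Pool.Agent.Helper42.PP1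
open Pool.Agent.Helper22.PP (nsig_mul nsig_one nsig_ne exists_n)

theorem root_pow_eq_one {p : ℕ} {P : (ZMod p)[X]} {m : ℕ} (h : P ∣ X ^ m - 1) :
    AdjoinRoot.root P ^ m = 1 := by
  have h1 : AdjoinRoot.mk P (X ^ m - 1) = 0 := AdjoinRoot.mk_eq_zero.2 h
  rw [map_sub, map_one, map_pow, AdjoinRoot.mk_X, sub_eq_zero] at h1
  exact h1

/-- A linear functional which vanishes on the multiples of `z` by the powers of the root. -/
theorem nondeg {p : ℕ} [Fact p.Prime] {P : (ZMod p)[X]} (hP : Irreducible P)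
    (tr : AdjoinRoot P →ₗ[ZMod p] ZMod p) (htr : tr ≠ 0) (z : AdjoinRoot P)
    (h : ∀ k : ℕ, tr (z * AdjoinRoot.root P ^ k) = 0) : z = 0 := by
  have : Fact (Irreducible P) := ⟨hP⟩
  by_contra hz
  apply htr
  have h1 : ∀ f : (ZMod p)[X], tr (z * AdjoinRoot.mk P f) = 0 := by
    intro f
    induction f using Polynomial.induction_on' with
    | add f g hf hg => rw [map_add, mul_add, map_add, hf, hg, add_zero]
    | monomial n a =>
      have e1 : AdjoinRoot.mk P (monomial n a) = a • AdjoinRoot.root P ^ n := by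
        rw [← C_mul_X_pow_eq_monomial, map_mul, map_pow, AdjoinRoot.mk_X, Algebra.smul_def]
        rfl
      rw [e1, mul_smul_comm, map_smul, h n, smul_zero]
  ext y
  obtain ⟨f, hf⟩ := AdjoinRoot.mk_surjective (z⁻¹ * y)
  have h2 := h1 f
  rw [hf, mul_inv_cancel_left₀ hz] at h2
  exact h2

/-- The condition `NTV` for a character which is not conjugate to the cyclotomic character. -/
theorem ntv_gen (p : ℕ) [Fact p.Prime] (K M K₁ M₁ : Type) [Field K] [NumberField K] [Field M]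
    [NumberField M] [Field K₁] [NumberField K₁] [Field M₁] [NumberField M₁] [Algebra K M]
    [Algebra K K₁] [Algebra K M₁] [Algebra M M₁] [Algebra K₁ M₁] (ε : K₁) (δ : M ≃ₐ[K] M)
    (P : (ZMod p)[X]) (hW : SitW p K M K₁ M₁ ε δ P)
    (hne : ∃ (g : M₁ ≃ₐ[K] M₁) (i : ℕ) (σ : K₁ ≃ₐ[K] K₁),
      (∀ y : M, g (algebraMap M M₁ y) = algebraMap M M₁ ((δ ^ i) y)) ∧
      (∀ y : K₁, g (algebraMap K₁ M₁ y) = algebraMap K₁ M₁ (σ y)) ∧
      AdjoinRoot.root P ^ i ≠ algebraMap (ZMod p) (AdjoinRoot P) (nsig p ε σ)) :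
    NTV p M₁ ε δ P := by
  have hp : p.Prime := Fact.out
  have : IsScalarTower K M M₁ := hW.st1
  have : IsScalarTower K K₁ M₁ := hW.st2
  have : IsGalois K M := hW.gM
  have : IsGalois K K₁ := hW.gK
  have : IsGalois K M₁ := hW.gMK
  have : Fact (Irreducible P) := ⟨hW.irr⟩
  set m := finrank K M with hm
  have hm0 : 0 < m := finrank_pos
  set t : AdjoinRoot P := AdjoinRoot.root P with ht
  have htm : t ^ m = 1 := root_pow_eq_one hW.dvdP
  have ht0 : t ≠ 0 := by
    intro h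
    rw [h, zero_pow hm0.ne'] at htm
    exact zero_ne_one htm
  have htinv : ∀ i : ℕ, t ^ (m - i % m) = (t ^ i)⁻¹ := by
    intro i
    symm
    apply inv_eq_of_mul_eq_one_right
    have e1 : t ^ i = t ^ (i % m) := by
      conv_lhs => rw [← Nat.div_add_mod i m, pow_add, pow_mul, htm, one_pow, one_mul]
    rw [e1, ← pow_add, Nat.add_sub_cancel' (Nat.mod_lt i hm0).le, htm]
  have hδm : ∀ i : ℕ, δ ^ (i % m) = δ ^ i := by
    intro i
    have := pow_mod_orderOf δ i
    rwa [hW.ord] at this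
  intro tr htr η γ hη
  by_contra hcon
  push Not at hcon
  -- every power of `δ` extends
  have hcard : Nat.card (M ≃ₐ[K] M) = m := IsGalois.card_aut_eq_finrank K M
  have hF : ∀ (g : M₁ ≃ₐ[K] M₁) (i : ℕ) (σ : K₁ ≃ₐ[K] K₁),
      (∀ y : M, g (algebraMap M M₁ y) = algebraMap M M₁ ((δ ^ i) y)) →
      (∀ y : K₁, g (algebraMap K₁ M₁ y) = algebraMap K₁ M₁ (σ y)) →
      tr (η * (t ^ i)⁻¹) + γ * (nsig p ε σ)⁻¹ = 0 := by
    intro g i σ h1 h2
    have h3 := hcon g (i % m) σ (Nat.mod_lt i hm0) (by rw [hδm]; exact h1) h2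
    have h4 := htinv i
    rwa [h4] at h3
  obtain ⟨g₀, i₀, σ₀, h01, h02, h03⟩ := hne
  have hz : ∀ j : ℕ, tr (η * ((t ^ i₀)⁻¹ - algebraMap (ZMod p) (AdjoinRoot P) (nsig p ε σ₀)⁻¹) *
      (t ^ j)⁻¹) = 0 := by
    intro j
    obtain ⟨g, hg⟩ := AlgEquiv.restrictNormalHom_surjective (F := K) (K₁ := M) M₁ (δ ^ j)
    have hg1 : ∀ y : M, g (algebraMap M M₁ y) = algebraMap M M₁ ((δ ^ j) y) := by
      intro y
      rw [← hg]
      exact (AlgEquiv.restrictNormal_commutes g M y).symm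
    have hg2 : ∀ y : K₁, g (algebraMap K₁ M₁ y) =
        algebraMap K₁ M₁ (AlgEquiv.restrictNormalHom K₁ g y) := fun y ↦
      (AlgEquiv.restrictNormal_commutes g K₁ y).symm
    set τ := AlgEquiv.restrictNormalHom K₁ g with hτ
    have e1 := hF g j τ hg1 hg2
    have e2 := hF (g₀ * g) (i₀ + j) (σ₀ * τ) (by
      intro y
      rw [AlgEquiv.mul_apply, hg1, h01, pow_add, AlgEquiv.mul_apply]) (by
      intro y
      rw [AlgEquiv.mul_apply, hg2, h02, AlgEquiv.mul_apply])
    rw [nsig_mul hW.prim, mul_inv, pow_add, mul_inv] at e2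
    have e3 : η * ((t ^ i₀)⁻¹ - algebraMap (ZMod p) (AdjoinRoot P) (nsig p ε σ₀)⁻¹) *
        (t ^ j)⁻¹ = η * ((t ^ i₀)⁻¹ * (t ^ j)⁻¹) - (nsig p ε σ₀)⁻¹ • (η * (t ^ j)⁻¹) := by
      rw [Algebra.smul_def]
      ring
    rw [e3, map_sub, map_smul, smul_eq_mul]
    linear_combination e2 - (nsig p ε σ₀)⁻¹ * e1
  have hz2 : η * ((t ^ i₀)⁻¹ - algebraMap (ZMod p) (AdjoinRoot P) (nsig p ε σ₀)⁻¹) = 0 := by
    refine nondeg hW.irr tr htr _ fun k ↦ ?_
    have h1 := hz ((m - 1) * k)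
    have h2 : (t ^ ((m - 1) * k))⁻¹ = t ^ k := by
      apply inv_eq_of_mul_eq_one_right
      rw [← pow_add]
      have h3 : (m - 1) * k + k = m * k := by
        have h4 : m = (m - 1) + 1 := by omega
        conv_rhs => rw [h4]
        ring
      rw [h3, pow_mul, htm, one_pow]
    rw [h2] at h1
    exact h1
  rcases mul_eq_zero.1 hz2 with h | h
  · exact hη h
  · apply h03
    rw [sub_eq_zero, map_inv₀] at h
    exact inv_injective h

end Pool.Agent.Helper76.PP
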