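import Pool.Agent.Helper76.PP.Gal
import Pool.Agent.Helper42.PP.NZY
import Pool.Agent.Helper42.PP.SEL

/-!
# Project PP: the functionals `R v`, `G v` at norms, as sums over `Gal(M₁/K)`
-/

set_option autoImplicit false

namespace Pool.Agent.Helper76.PP

open NumberField Polynomial Module IsDedekindDomain
open Pool.Agent.Helper51.RP Pool.Agent.Helper42.RD Pool.Agent.Helper42.PP

section kap

variable {p : ℕ} [Fact p.Prime] {P : (ZMod p)[X]}

/-- The character of `Gal(M/K)` with values in `κ`, `δ^i ↦ ξ^(-i)`. -/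
theorem exists_chr {K M : Type} [Field K] [Field M] [Algebra K M] [FiniteDimensional K M]
    [IsGalois K M] (δ : M ≃ₐ[K] M) (m : ℕ) (hδ : orderOf δ = m) (hm : finrank K M = m)
    (hm0 : 2 ≤ m) (h1 : AdjoinRoot.root P ^ m = 1)
    (h2 : ∀ e : ℕ, AdjoinRoot.root P ^ e = 1 → m ∣ e) :
    ∃ c : (M ≃ₐ[K] M) → AdjoinRoot P, (∀ i ≤ m, c (δ ^ i) = AdjoinRoot.root P ^ (m - i)) ∧
      (∀ σ τ, c (σ * τ) = c σ * c τ) ∧ (∀ τ, c τ = 1 → τ = 1) ∧
      ∀ j : ℕ, ∃ τ, c τ = AdjoinRoot.root P ^ j := by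
  have hgen : ∀ g : M ≃ₐ[K] M, ∃ i : ℕ, δ ^ i = g := by
    intro g
    have e1 : Subgroup.zpowers δ = ⊤ := by
      apply Subgroup.eq_top_of_card_eq
      rw [Nat.card_zpowers, hδ, IsGalois.card_aut_eq_finrank, hm]
    have e2 : g ∈ Subgroup.zpowers δ := by rw [e1]; exact Subgroup.mem_top g
    obtain ⟨i, hi⟩ := (mem_powers_iff_mem_zpowers (x := δ) (y := g)).2 e2
    exact ⟨i, hi⟩
  choose ix hix using hgen
  set ξ := AdjoinRoot.root P with hξ
  set ρ := ξ ^ (m - 1) with hρ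
  have hρm : ρ ^ m = 1 := by rw [hρ, ← pow_mul, mul_comm, pow_mul, h1, one_pow]
  have hinv : ξ * ρ = 1 := by
    rw [hρ, ← pow_succ', Nat.sub_add_cancel (by omega), h1]
  have hρξ : ∀ i, ρ ^ i * ξ ^ i = 1 := by
    intro i
    rw [← mul_pow, mul_comm ρ ξ, hinv, one_pow]
  have key : ∀ i j : ℕ, δ ^ i = δ ^ j → ρ ^ i = ρ ^ j := by
    intro i j h
    have h3 : i ≡ j [MOD m] := by
      have := pow_eq_pow_iff_modEq.1 h
      rwa [hδ] at this
    calc ρ ^ i = ρ ^ (i % m) := (pow_mod_of hρm i).symm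
      _ = ρ ^ (j % m) := by rw [h3]
      _ = ρ ^ j := pow_mod_of hρm j
  have hc : ∀ i : ℕ, ρ ^ (ix (δ ^ i)) = ρ ^ i := fun i ↦ key _ _ (hix _)
  refine ⟨fun τ ↦ ρ ^ ix τ, fun i hi ↦ ?_, fun σ τ ↦ ?_, fun τ h ↦ ?_, fun j ↦ ?_⟩
  · dsimp only
    rw [hc]
    have e1 : ξ ^ (m - i) * ξ ^ i = 1 := by rw [← pow_add, Nat.sub_add_cancel hi, h1]
    have e2 := hρξ i
    calc ρ ^ i = ρ ^ i * (ξ ^ (m - i) * ξ ^ i) := by rw [e1, mul_one]
      _ = (ρ ^ i * ξ ^ i) * ξ ^ (m - i) := by ring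
      _ = ξ ^ (m - i) := by rw [e2, one_mul]
  · dsimp only
    rw [← pow_add]
    apply key
    rw [hix, pow_add, hix, hix]
  · dsimp only at h
    have e2 := hρξ (ix τ)
    rw [h, one_mul] at e2
    have e3 := h2 _ e2
    rw [← hix τ]
    rw [← hδ] at e3
    exact orderOf_dvd_iff_pow_eq_one.1 e3
  · refine ⟨δ ^ ((m - 1) * j), ?_⟩
    dsimp only
    rw [hc, hρ, ← pow_mul, ← mul_assoc]
    have e1 : (m - 1) * (m - 1) = m * (m - 2) + 1 := by
      obtain ⟨a, rfl⟩ := Nat.exists_eq_add_of_le hm0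
      have : 2 + a - 1 = a + 1 := by omega
      rw [this]
      have : 2 + a - 2 = a := by omega
      rw [this]
      ring
    rw [e1, Nat.add_mul, pow_add, one_mul, mul_assoc, pow_mul, h1, one_pow, one_mul]
where
  pow_mod_of {R : Type} [Monoid R] {ρ : R} {m : ℕ} (h : ρ ^ m = 1) (i : ℕ) :
      ρ ^ (i % m) = ρ ^ i := by
    conv_rhs => rw [← Nat.mod_add_div i m, pow_add, pow_mul, h, one_pow, mul_one]

/-- Sums over `range m` as sums over the Galois group. -/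
theorem sum_pow {K M A : Type} [Field K] [Field M] [Algebra K M] [FiniteDimensional K M]
    [IsGalois K M] [AddCommMonoid A] (δ : M ≃ₐ[K] M) (m : ℕ) (hδ : orderOf δ = m)
    (hm : finrank K M = m) (F : (M ≃ₐ[K] M) → A) :
    ∑ i ∈ Finset.range m, F (δ ^ i) = ∑ τ : M ≃ₐ[K] M, F τ := by
  classical
  have hinj : Set.InjOn (fun i : ℕ ↦ δ ^ i) (Finset.range m : Set ℕ) := by
    intro i hi j hj h
    rw [Finset.coe_range, ← hδ] at hi hj
    exact pow_injOn_Iio_orderOf hi hj h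
  have himg : (Finset.range m).image (fun i : ℕ ↦ δ ^ i) = Finset.univ := by
    apply Finset.eq_univ_of_card
    rw [Finset.card_image_of_injOn hinj, Finset.card_range, ← hm, ← IsGalois.card_aut_eq_finrank,
      Nat.card_eq_fintype_card]
  rw [← himg, Finset.sum_image hinj]

end kap

end Pool.Agent.Helper76.PP
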