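import Pool.Agent.Helper76.PP.Fun

/-!
# Project PP: the functionals `R v`, `G v` at norms, as sums over `Gal(M₁/K)`
-/

set_option autoImplicit false

namespace Pool.Agent.Helper76.PP

open NumberField Polynomial Module IsDedekindDomain
open Pool.Agent.Helper51.RP Pool.Agent.Helper42.RD Pool.Agent.Helper42.PP

theorem hom_prod {F : Type} [Field F] {A ι : Type} [AddCommGroup A] {f : Fˣ → A} (hf : Hom f)
    (s : Finset ι) (x : ι → Fˣ) : f (∏ i ∈ s, x i) = ∑ i ∈ s, f (x i) := by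
  classical
  induction s using Finset.induction_on with
  | empty =>
    have h := hf 1 1
    rw [mul_one] at h
    rw [Finset.prod_empty, Finset.sum_empty]
    exact left_eq_add.1 h
  | insert a s ha ih => rw [Finset.prod_insert ha, Finset.sum_insert ha, hf, ih]

variable {p : ℕ} [Fact p.Prime] {K M K₁ M₁ : Type} [Field K] [NumberField K] [Field M]
    [NumberField M] [Field K₁] [NumberField K₁] [Field M₁] [NumberField M₁] [Algebra K M]
    [Algebra K K₁] [Algebra K M₁] [Algebra M M₁] [Algebra K₁ M₁] [IsScalarTower K M M₁]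
    [IsScalarTower K K₁ M₁] [IsGalois K M] [IsGalois K K₁] [IsGalois K M₁] {ε : K₁}
    {δ : M ≃ₐ[K] M} {P : (ZMod p)[X]} (B : Base p K M K₁ M₁ ε δ P)

/-- `tr(η R_v(N x))` for `x ∈ M₁ˣ`. -/
theorem tr_R (hNOR : B_NOR) (m : ℕ) (hδ : orderOf δ = m) (hm : finrank K M = m)
    (tr : AdjoinRoot P →ₗ[ZMod p] ZMod p) {v : HeightOneSpectrum (𝓞 K)} (hv : v ∈ B.Vis)
    (c : (M ≃ₐ[K] M) → AdjoinRoot P)
    (hc : ∀ i ≤ m, c (δ ^ i) = AdjoinRoot.root P ^ (m - i)) (η : AdjoinRoot P) (x : M₁ˣ) :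
    tr (η * B.R v (nrm M M₁ x)) = ∑ g : M₁ ≃ₐ[K] M₁,
      tr (η * c (AlgEquiv.restrictNormalHom M g)) * B.th v (act g x) := by
  classical
  have hth := B.thh v hv
  choose s hs using AlgEquiv.restrictNormalHom_surjective (F := K) (K₁ := M) M₁
  have h1 : ∀ τ : M ≃ₐ[K] M, B.th v (inc M M₁ (act τ (nrm M M₁ x))) =
      ∑ h : M₁ ≃ₐ[M] M₁, B.th v (act (s τ * h.restrictScalars K) x) := by
    intro τ
    have h2 := ((hNOR p K M M₁ B.S).2.1 (s τ) τ (fun y ↦ by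
      rw [restr_spec (E := M) (s τ) y, hs]) x).2
    rw [h2, hom_prod hth]
  have h3 := sum_wt (E := M) (fun g : M₁ ≃ₐ[K] M₁ ↦ B.th v (act g x)) (fun τ ↦ tr (η * c τ)) s hs
  rw [← h3]
  have h4 : B.R v (nrm M M₁ x) = ∑ τ : M ≃ₐ[K] M,
      algebraMap (ZMod p) (AdjoinRoot P) (B.th v (inc M M₁ (act τ (nrm M M₁ x)))) * c τ := by
    rw [← sum_pow δ m hδ hm]
    unfold Base.R kf
    rw [hm]
    refine Finset.sum_congr rfl fun i hi ↦ ?_
    rw [hc i (Finset.mem_range.1 hi).le]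
  rw [h4, Finset.mul_sum, map_sum]
  refine Finset.sum_congr rfl fun τ _ ↦ ?_
  rw [h1 τ]
  have h5 : η * (algebraMap (ZMod p) (AdjoinRoot P)
      (∑ h : M₁ ≃ₐ[M] M₁, B.th v (act (s τ * h.restrictScalars K) x)) * c τ) =
      (∑ h : M₁ ≃ₐ[M] M₁, B.th v (act (s τ * h.restrictScalars K) x)) • (η * c τ) := by
    rw [Algebra.smul_def]; ring
  rw [h5, map_smul, smul_eq_mul, mul_comm]

/-- `G_v(N x)` for `x ∈ M₁ˣ`. -/
theorem G_nrm (hNOR : B_NOR) {v : HeightOneSpectrum (𝓞 K)} (hv : v ∈ B.Vis) (x : M₁ˣ) :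
    B.G v (nrm K₁ M₁ x) = ∑ g : M₁ ≃ₐ[K] M₁,
      (nsig p ε (AlgEquiv.restrictNormalHom K₁ g))⁻¹ * B.th v (act g x) := by
  classical
  have hth := B.thh v hv
  choose s hs using AlgEquiv.restrictNormalHom_surjective (F := K) (K₁ := K₁) M₁
  have h1 : ∀ τ : K₁ ≃ₐ[K] K₁, B.th v (inc K₁ M₁ (act τ (nrm K₁ M₁ x))) =
      ∑ h : M₁ ≃ₐ[K₁] M₁, B.th v (act (s τ * h.restrictScalars K) x) := by
    intro τ
    have h2 := ((hNOR p K K₁ M₁ B.S).2.1 (s τ) τ (fun y ↦ by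
      rw [restr_spec (E := K₁) (s τ) y, hs]) x).2
    rw [h2, hom_prod hth]
  have h3 := sum_wt (E := K₁) (fun g : M₁ ≃ₐ[K] M₁ ↦ B.th v (act g x))
    (fun τ ↦ (nsig p ε τ)⁻¹) s hs
  rw [← h3]
  unfold Base.G wf
  refine Finset.sum_congr rfl fun τ _ ↦ ?_
  change (nsig p ε τ)⁻¹ * B.th v (inc K₁ M₁ (act τ (nrm K₁ M₁ x))) = _
  rw [h1 τ]

end Pool.Agent.Helper76.PP
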