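import Pool.Agent.Helper76.PP.Goals3

/-!
# Project PP: sums over Galois groups
-/

set_option autoImplicit false

namespace Pool.Agent.Helper76.PP

open NumberField Polynomial Module IsDedekindDomain
open Pool.Agent.Helper51.RP Pool.Agent.Helper42.RD Pool.Agent.Helper42.PP

section gal

variable {K E F : Type} [Field K] [Field E] [Field F] [Algebra K E] [Algebra K F] [Algebra E F]
  [IsScalarTower K E F]

theorem restr_eq [Normal K E] (g : F ≃ₐ[K] F) (σ : E ≃ₐ[K] E)
    (h : ∀ y : E, g (algebraMap E F y) = algebraMap E F (σ y)) :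
    AlgEquiv.restrictNormalHom E g = σ := by
  ext y
  apply (algebraMap E F).injective
  rw [← h y]
  exact AlgEquiv.restrictNormal_commutes g E y

theorem restr_spec [Normal K E] (g : F ≃ₐ[K] F) (y : E) :
    g (algebraMap E F y) = algebraMap E F (AlgEquiv.restrictNormalHom E g y) :=
  (AlgEquiv.restrictNormal_commutes g E y).symm

/-- The sum over the elements of `Gal(F/K)` with a given restriction to `E`. -/
theorem sum_fib [Normal K E] [FiniteDimensional K F] [FiniteDimensional K E] {A : Type}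
    [AddCommMonoid A] [DecidableEq (E ≃ₐ[K] E)] (f : (F ≃ₐ[K] F) → A) (g₀ : F ≃ₐ[K] F) :
    haveI : FiniteDimensional E F := FiniteDimensional.right K E F
    ∑ h : F ≃ₐ[E] F, f (g₀ * h.restrictScalars K) =
      ∑ g : F ≃ₐ[K] F with AlgEquiv.restrictNormalHom E g = AlgEquiv.restrictNormalHom E g₀, f g := by
  haveI : FiniteDimensional E F := FiniteDimensional.right K E F
  refine Finset.sum_bij (fun h _ ↦ g₀ * h.restrictScalars K) ?_ ?_ ?_ ?_
  · intro h _
    rw [Finset.mem_filter]
    refine ⟨Finset.mem_univ _, ?_⟩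
    rw [map_mul]
    have : AlgEquiv.restrictNormalHom E (h.restrictScalars K) = 1 := by
      refine restr_eq _ _ fun y ↦ ?_
      simp
    rw [this, mul_one]
  · intro h _ h' _ e
    have e' := mul_left_cancel e
    ext x
    have := congrArg (fun u : F ≃ₐ[K] F ↦ u x) e'
    simpa using this
  · intro g hg
    rw [Finset.mem_filter] at hg
    have h1 : AlgEquiv.restrictNormalHom E (g₀⁻¹ * g) = 1 := by
      rw [map_mul, map_inv, hg.2, inv_mul_cancel]
    refine ⟨{ (g₀⁻¹ * g).toRingEquiv with
      commutes' := fun y ↦ ?_ }, Finset.mem_univ _, ?_⟩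
    · have := restr_spec (E := E) (g₀⁻¹ * g) y
      rw [h1] at this
      simpa using this
    · ext x
      change g₀ ((g₀⁻¹ * g) x) = g x
      rw [AlgEquiv.mul_apply, ← AlgEquiv.mul_apply, mul_inv_cancel, AlgEquiv.one_apply]
  · intro h _
    rfl

/-- A sum over `Gal(F/K)` with weights depending on the restriction to `E`. -/
theorem sum_wt [Normal K E] [Normal K F] [FiniteDimensional K F] [FiniteDimensional K E] {A : Type}
    [NonUnitalNonAssocSemiring A] (f : (F ≃ₐ[K] F) → A) (w : (E ≃ₐ[K] E) → A)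
    (s : (E ≃ₐ[K] E) → (F ≃ₐ[K] F)) (hs : ∀ τ, AlgEquiv.restrictNormalHom E (s τ) = τ) :
    haveI : FiniteDimensional E F := FiniteDimensional.right K E F
    ∑ τ : E ≃ₐ[K] E, w τ * ∑ h : F ≃ₐ[E] F, f (s τ * h.restrictScalars K) =
      ∑ g : F ≃ₐ[K] F, w (AlgEquiv.restrictNormalHom E g) * f g := by
  classical
  haveI : FiniteDimensional E F := FiniteDimensional.right K E F
  rw [← Finset.sum_fiberwise Finset.univ (fun g : F ≃ₐ[K] F ↦ AlgEquiv.restrictNormalHom E g)]
  refine Finset.sum_congr rfl fun τ _ ↦ ?_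
  rw [sum_fib (E := E) f (s τ), hs, Finset.mul_sum]
  refine Finset.sum_congr rfl fun g hg ↦ ?_
  rw [(Finset.mem_filter.1 hg).2]

end gal

end Pool.Agent.Helper76.PP
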