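import Pool.Agent.Helper76.PP.SMg
import Pool.Agent.Helper79.PP.PVIS

/-!
# Project PP, packet B_SM
-/

set_option autoImplicit false

namespace Pool.Agent.Helper76.PP

open NumberField Polynomial Module IsDedekindDomain
open Pool.Agent.Helper51.RP Pool.Agent.Helper42.RD Pool.Agent.Helper42.PP Pool.Agent.Helper42.PP1
open Pool.Agent.Helper51.SigLeo (IwasawaLog)
open Pool.Agent.Helper94.PP (A1_PRI A1_FIX NTP)

/-- The visible primes are split in `K₁`. -/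
theorem vis_calP {p : ℕ} [Fact p.Prime] {K M K₁ M₁ : Type} [Field K] [NumberField K] [Field M]
    [NumberField M] [Field K₁] [NumberField K₁] [Field M₁] [NumberField M₁] [Algebra K M]
    [Algebra K K₁] [Algebra K M₁] [Algebra M M₁] [Algebra K₁ M₁] [IsScalarTower K M M₁]
    [IsScalarTower K K₁ M₁] [IsGalois K M] [IsGalois K K₁] [IsGalois K M₁] {ε : K₁}
    (hT : Tower p K M K₁ M₁ ε) {δ : M ≃ₐ[K] M} {P : (ZMod p)[X]}
    (B : Base p K M K₁ M₁ ε δ P) : B.Vis ⊆ B.calP := by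
  rintro v ⟨hvS, W, hWv, hWf⟩
  have hv1 : v.valuation K (p : K) = 1 := by
    have h := v.valuation_le_one (K := K) (p : 𝓞 K)
    have h' : v.valuation K (p : K) ≤ 1 := by simpa using h
    rcases h'.lt_or_eq with h6 | h6
    · exact (hvS (B.abp v h6)).elim
    · exact h6
  have h6 := (Pool.Agent.Helper79.PP.p_vis p K M K₁ M₁ ε hT v hv1).1 W hWv hWf
  have hWQ : Above W (Pool.Agent.Helper40.RS.bel K₁ W) := rfl
  have h7 := h6.2.2 _ hWQ
  exact ⟨hvS, _, h7.2.2, h7.1⟩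

theorem b_sm (hSMF : B_SMF) (hPRC : B_PRC) (hKAP : B_KAP) (hIDN : B_IDN) (hTRS : B_TRS)
    (hTRN : B_TRN) (hDRC : B_DRC) (hPRI : A1_PRI) (hFIX : A1_FIX) : B_SM := by
  intro p _ k _ _ K M K₁ M₁ _ _ _ _ _ _ _ _ _ _ _ _ _ _ _ _ _ _ _ ε hT m δ ζ Φ P _ hP hδ hm B L T
    aτ E tr ψ₁ htr hψ₁
  obtain ⟨-, -, -, -, hk⟩ := hKAP p k m ζ Φ P hP
  obtain ⟨hk1, hk2⟩ := hk tr htr
  obtain ⟨hk3, hk4, -⟩ := hk2 ψ₁ hψ₁
  have : IsTotallyComplex M₁ := by
    refine ⟨fun w ↦ ?_⟩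
    exact InfinitePlace.not_isReal_iff_isComplex.1 fun h ↦
      (InfinitePlace.not_isReal_iff_isComplex.2
        (IsTotallyComplex.isComplex (w.comap (algebraMap K M₁)))) (h.comap (algebraMap K M₁))
  let E' : TauN B.r B L T aτ := ⟨E.h, E.hP, E.hL, E.hS, E.hI⟩
  have hS : SmfC B E' tr := fun β D y h1 h2 h3 ↦
    hSMF p k K M K₁ M₁ ε hT m δ ζ Φ P hP hδ hm B L T aτ E tr htr β D y h1 h2 h3
  exact sm_gen B hPRC hIDN hTRS hTRN hDRC hPRI hFIX E' (vis_calP hT B) tr ψ₁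
    (fun η h ↦ hk1 η fun i ↦ by rw [mul_comm]; exact h _) hk3 (fun χ ↦ hk4 B.r χ) hS

end Pool.Agent.Helper76.PP
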