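import Pool.Agent.Helper76.PP.Goals3
import Pool.Agent.Helper14.PP.BKUM

/-!
# Project PP, packet B_SM: the analytic core
-/

set_option autoImplicit false

namespace Pool.Agent.Helper76.PP

open NumberField Polynomial Module IsDedekindDomain
open Pool.Agent.Helper51.RP Pool.Agent.Helper42.RD Pool.Agent.Helper42.PP
open Pool.Agent.Helper51.SigLeo (IwasawaLog)
open Pool.Agent.Helper38.RS (pz)
open Pool.Agent.Helper51.PP (RC Chs)
open Pool.Agent.Helper84.RS (summable_norm)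

theorem absNorm_pos' {F : Type} [Field F] [NumberField F] (v : HeightOneSpectrum (𝓞 F)) :
    0 < Ideal.absNorm v.asIdeal := by
  rw [Nat.pos_iff_ne_zero, Ne, Ideal.absNorm_eq_zero_iff]
  exact v.ne_bot

/-- `log(1 + log N(𝔪)) ≤ log log(N(D) + 3) + C`. -/
theorem log_norm_le (hIDN : B_IDN) (p : ℕ) [Fact p.Prime] (K F : Type) [Field K] [NumberField K]
    [Field F] [NumberField F] [Algebra K F] (S : Finset (HeightOneSpectrum (𝓞 K)))
    (habp : ∀ v : HeightOneSpectrum (𝓞 K), v.valuation K (p : K) < 1 → v ∈ S) :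
    ∃ C : ℝ, ∀ D : Finset (HeightOneSpectrum (𝓞 K)),
      Real.log (1 + Real.log (Ideal.absNorm (mD p F S D))) ≤
        Real.log (Real.log ((∏ v ∈ D, Ideal.absNorm v.asIdeal : ℕ) + 3)) + C := by
  obtain ⟨h0, h1, -⟩ := hIDN p K F S habp
  set c₀ : ℝ := Real.log (Ideal.absNorm (modu p F S)) with hc₀
  have hm1 : (1 : ℝ) ≤ (Ideal.absNorm (modu p F S) : ℝ) := by
    have : Ideal.absNorm (modu p F S) ≠ 0 := by
      rw [Ne, Ideal.absNorm_eq_zero_iff]; exact h0
    exact_mod_cast Nat.one_le_iff_ne_zero.2 this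
  have hc₀0 : 0 ≤ c₀ := Real.log_nonneg hm1
  set d : ℝ := (finrank K F : ℝ) with hd
  have hd0 : 0 ≤ d := by positivity
  refine ⟨Real.log (1 + c₀ + d), fun D ↦ ?_⟩
  set N : ℕ := ∏ v ∈ D, Ideal.absNorm v.asIdeal with hN
  have hN1 : 1 ≤ N := Nat.one_le_iff_ne_zero.2 (Finset.prod_ne_zero_iff.2 fun v _ ↦
    (absNorm_pos' v).ne')
  have hN1' : (1 : ℝ) ≤ N := by exact_mod_cast hN1
  have hl0 : 0 ≤ Real.log N := Real.log_nonneg hN1'
  have hnorm : Ideal.absNorm (mD p F S D) = Ideal.absNorm (modu p F S) * N ^ finrank K F := by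
    unfold mD
    rw [map_mul, map_prod, hN, ← Finset.prod_pow]
    congr 1
    exact Finset.prod_congr rfl fun v _ ↦ (h1 v).2.2.1
  have hlog : Real.log (Ideal.absNorm (mD p F S D)) = c₀ + d * Real.log N := by
    rw [hnorm, Nat.cast_mul, Nat.cast_pow, Real.log_mul (by positivity) (by positivity),
      Real.log_pow]
  have hL1 : 1 ≤ Real.log (N + 3) := by
    have h4 : Real.exp 1 ≤ (N : ℝ) + 3 := by
      have := Real.exp_one_lt_d9
      linarith
    rw [Real.le_log_iff_exp_le (by positivity)]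
    exact h4
  have hL2 : Real.log N ≤ Real.log (N + 3) := Real.log_le_log (by positivity) (by linarith)
  rw [hlog]
  have h5 : 1 + (c₀ + d * Real.log N) ≤ (1 + c₀ + d) * Real.log (N + 3) := by
    have e1 : d * Real.log N ≤ d * Real.log (N + 3) := mul_le_mul_of_nonneg_left hL2 hd0
    nlinarith
  have h6 : 0 < 1 + (c₀ + d * Real.log N) := by positivity
  calc Real.log (1 + (c₀ + d * Real.log N)) ≤ Real.log ((1 + c₀ + d) * Real.log (N + 3)) :=
        Real.log_le_log h6 h5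
    _ = Real.log (1 + c₀ + d) + Real.log (Real.log (N + 3)) :=
        Real.log_mul (by positivity) (by linarith)
    _ = _ := by rw [add_comm]

/-- The analytic core of `sm`. -/
theorem sm_core (hIDN : B_IDN) (hTRS : B_TRS) (hTRN : B_TRN) (hDRC : B_DRC)
    (p : ℕ) [Fact p.Prime] (K F : Type) [Field K] [NumberField K]
    [Field F] [NumberField F] [Algebra K F] [IsGalois K F] (S : Finset (HeightOneSpectrum (𝓞 K)))
    (habp : ∀ v : HeightOneSpectrum (𝓞 K), v.valuation K (p : K) < 1 → v ∈ S)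
    (hunr : ∀ v : HeightOneSpectrum (𝓞 K), v ∉ S → ∀ W : HeightOneSpectrum (𝓞 F), Above W v →
      ∀ x : K, ordv W (algebraMap K F x) = ordv v x) (C₁ : ℝ) :
    ∃ C : ℝ, 0 ≤ C ∧ ∀ (D : Finset (HeightOneSpectrum (𝓞 K))) (V : Set (HeightOneSpectrum (𝓞 K)))
      (X : Ideal (𝓞 F) → ℂ), RC (mD p F S D) X →
      (∀ s : ℝ, 1 < s → s ≤ 2 → ∑' W : HeightOneSpectrum (𝓞 F),
        (X W.asIdeal).re * (Ideal.absNorm W.asIdeal : ℝ) ^ (-s) ≤
          Real.log (1 + Real.log (Ideal.absNorm (mD p F S D))) + C₁) →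
      (∀ (W : HeightOneSpectrum (𝓞 F)) (v : HeightOneSpectrum (𝓞 K)), Above W v → FreeP K W →
        v ∉ S → v ∉ D → v ∉ V → X W.asIdeal = 1) →
      ∀ (n : ℕ) (A : Finset (HeightOneSpectrum (𝓞 K))), 2 ≤ n →
        (∀ v, v ∈ A ↔ v ∈ V ∧ Ideal.absNorm v.asIdeal < 2 ^ n) →
        1 / (2 * (finrank K F : ℝ)) * Real.log n -
          C * Real.log (Real.log ((∏ v ∈ D, Ideal.absNorm v.asIdeal : ℕ) + 3)) - C ≤
          ∑ v ∈ A, (1 : ℝ) / Ideal.absNorm v.asIdeal := by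
  obtain ⟨Ca, hCa⟩ := Pool.Agent.Helper14.PP.psmK F
  obtain ⟨Cb, hCb⟩ := hTRS K F S hunr
  obtain ⟨Cc, hCc0, hCc⟩ := hDRC K
  obtain ⟨Cd, hCd⟩ := hTRN K
  obtain ⟨Ce, hCe⟩ := log_norm_le hIDN p K F S habp
  set d : ℝ := (finrank K F : ℝ) with hd
  have hfd : FiniteDimensional K F := Module.Finite.of_restrictScalars_finite ℚ K F
  have hd1 : 1 ≤ d := by
    rw [hd]
    exact_mod_cast finrank_pos (R := K) (M := F)
  set E : ℝ := |Real.log (Real.log 2)| + |Ca| + |Cb| + |C₁| + |Ce| with hE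
  refine ⟨1 + Cc + |Cd| + E, by positivity, fun D V X hX hs hX1 n A hn hA ↦ ?_⟩
  set ℓ : ℝ := Real.log (Real.log ((∏ v ∈ D, Ideal.absNorm v.asIdeal : ℕ) + 3)) with hℓ
  have hN1 : (1 : ℝ) ≤ ((∏ v ∈ D, Ideal.absNorm v.asIdeal : ℕ) : ℝ) := by
    have : 1 ≤ ∏ v ∈ D, Ideal.absNorm v.asIdeal :=
      Nat.one_le_iff_ne_zero.2 (Finset.prod_ne_zero_iff.2 fun v _ ↦ (absNorm_pos' v).ne')
    exact_mod_cast this
  have hℓ0 : 0 ≤ ℓ := by
    apply Real.log_nonneg
    rw [Real.le_log_iff_exp_le (by positivity)]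
    have := Real.exp_one_lt_d9
    linarith
  -- the parameter `s`
  have hlog : 0 < Real.log 2 := Real.log_pos (by norm_num)
  have hlog2 : 1 / 2 < Real.log 2 := by
    have := Real.log_two_gt_d9
    linarith
  have hn2r : (2 : ℝ) ≤ n := by exact_mod_cast hn
  have hnl : 1 < n * Real.log 2 := by nlinarith
  set s : ℝ := 1 + 1 / (n * Real.log 2) with hs'
  have hs1 : 1 < s := by
    rw [hs']
    have : 0 < 1 / (n * Real.log 2) := one_div_pos.2 (by linarith)
    linarith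
  have hs2 : s ≤ 2 := by
    rw [hs']
    have : 1 / (n * Real.log 2) ≤ 1 := by
      rw [div_le_one (by linarith)]
      exact hnl.le
    linarith
  have hs3 : 1 / (s - 1) = n * Real.log 2 := by
    rw [hs', add_sub_cancel_left, one_div_one_div]
  have hs4 : Real.log (1 / (s - 1)) = Real.log n + Real.log (Real.log 2) := by
    rw [hs3, Real.log_mul (by positivity) hlog.ne']
  -- the function `g`
  have hXn : ∀ I, ‖X I‖ ≤ 1 := by
    intro I
    by_cases h1 : I = ⊥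
    · rw [h1, hX.zero, norm_zero]; exact zero_le_one
    · by_cases h2 : I ⊔ mD p F S D = ⊤
      · rw [hX.cop I h1 h2]
      · rw [hX.ncop I h1 h2, norm_zero]; exact zero_le_one
  have hre : ∀ I, |(X I).re| ≤ 1 := fun I ↦ (Complex.abs_re_le_norm _).trans (hXn I)
  have hsumm : Summable fun W : HeightOneSpectrum (𝓞 F) ↦ (Ideal.absNorm W.asIdeal : ℝ) ^ (-s) :=
    summable_norm F s hs1
  have hsumm2 : Summable fun W : HeightOneSpectrum (𝓞 F) ↦
      (X W.asIdeal).re * (Ideal.absNorm W.asIdeal : ℝ) ^ (-s) := by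
    refine Summable.of_norm_bounded hsumm fun W ↦ ?_
    rw [norm_mul, Real.norm_eq_abs, Real.norm_eq_abs,
      abs_of_nonneg (a := (Ideal.absNorm W.asIdeal : ℝ) ^ (-s)) (by positivity)]
    calc |(X W.asIdeal).re| * (Ideal.absNorm W.asIdeal : ℝ) ^ (-s) ≤
        1 * (Ideal.absNorm W.asIdeal : ℝ) ^ (-s) :=
          mul_le_mul_of_nonneg_right (hre _) (by positivity)
      _ = _ := one_mul _
  have e1 := hCb D V (fun W ↦ 1 - (X W.asIdeal).re) (fun W ↦ by
      have := abs_le.1 (hre W.asIdeal)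
      constructor <;> linarith) (fun W v h1 h2 h3 h4 h5 ↦ by
      rw [hX1 W v h1 h2 h3 h4 h5, Complex.one_re, sub_self]) s hs1 hs2
  have e2 : ∑' W : HeightOneSpectrum (𝓞 F), (1 - (X W.asIdeal).re) *
      (Ideal.absNorm W.asIdeal : ℝ) ^ (-s) =
      ∑' W : HeightOneSpectrum (𝓞 F), (Ideal.absNorm W.asIdeal : ℝ) ^ (-s) -
        ∑' W : HeightOneSpectrum (𝓞 F), (X W.asIdeal).re *
          (Ideal.absNorm W.asIdeal : ℝ) ^ (-s) := by
    rw [← hsumm.tsum_sub hsumm2]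
    refine tsum_congr fun W ↦ ?_
    ring
  have e3 : pz (F := F) Set.univ s =
      ∑' W : HeightOneSpectrum (𝓞 F), (Ideal.absNorm W.asIdeal : ℝ) ^ (-s) := by
    unfold Pool.Agent.Helper38.RS.pz
    exact tsum_univ (fun W : HeightOneSpectrum (𝓞 F) ↦ (Ideal.absNorm W.asIdeal : ℝ) ^ (-s))
  have e4 := hCa s hs1 hs2
  rw [e3, hs4] at e4
  have e4' := (abs_le.1 e4).1
  have e5 := hs s hs1 hs2
  have e6 := hCe D
  have e7 := hCc D
  have e8 := hCd V n A hn hA
  rw [← hs'] at e8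
  rw [e2] at e1
  have hP : 2 * d * pz V s ≤ 2 * d * (∑ v ∈ A, (1 : ℝ) / Ideal.absNorm v.asIdeal + Cd) :=
    mul_le_mul_of_nonneg_left e8 (by positivity)
  have hQ : 2 * d * ∑ v ∈ D, (1 : ℝ) / Ideal.absNorm v.asIdeal ≤ 2 * d * (Cc + Cc * ℓ) :=
    mul_le_mul_of_nonneg_left e7 (by positivity)
  set sA : ℝ := ∑ v ∈ A, (1 : ℝ) / Ideal.absNorm v.asIdeal with hsA
  have a1 := neg_abs_le (Real.log (Real.log 2))
  have a2 := le_abs_self Ca
  have a3 := le_abs_self Cb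
  have a4 := le_abs_self C₁
  have a5 := le_abs_self Ce
  have a6 := le_abs_self Cd
  -- `2 d sA ≥ log n - ℓ - E - 2 d (Cc + Cc ℓ) - 2 d Cd`
  have key : Real.log n - ℓ - E - 2 * d * (Cc + Cc * ℓ) - 2 * d * |Cd| ≤ 2 * d * sA := by
    have b1 : 2 * d * (sA + Cd) ≤ 2 * d * sA + 2 * d * |Cd| := by
      nlinarith
    linarith
  have h2d : 0 < 2 * d := by linarith
  have key2 : (Real.log n - ℓ - E - 2 * d * (Cc + Cc * ℓ) - 2 * d * |Cd|) / (2 * d) ≤ sA := by
    rw [div_le_iff₀ h2d]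
    linarith
  refine le_trans ?_ key2
  rw [le_div_iff₀ h2d]
  have c1 : (1 / (2 * d) * Real.log n - (1 + Cc + |Cd| + E) * ℓ - (1 + Cc + |Cd| + E)) * (2 * d) =
      Real.log n - 2 * d * (1 + Cc + |Cd| + E) * ℓ - 2 * d * (1 + Cc + |Cd| + E) := by
    field_simp
  rw [c1]
  have hE0 : 0 ≤ E := by positivity
  have hCd0 : 0 ≤ |Cd| := abs_nonneg _
  have c2 : ℓ ≤ 2 * d * ℓ := by nlinarith
  have c3 : E ≤ 2 * d * E := by nlinarith
  have c4 : 0 ≤ 2 * d * (|Cd| + E) * ℓ := by positivity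
  nlinarith

end Pool.Agent.Helper76.PP
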